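import Pool.Agent.Lib.ZD.Kum

/-!
# The field generated by roots of unity and the `p^s`-th roots of given elements
-/

set_option autoImplicit false

namespace Pool.Agent.ZD

open Polynomial

theorem tower (L : Type) [Field L] [CharZero L] {p : ℕ} (hp : p.Prime)
    (hz : ∀ z : L, z ^ p = 1 → z = 1) {D s : ℕ} (hsD : s < D) {ι : Type} [Fintype ι]
    (d : ι → L) (hd : ∀ i, d i ≠ 0) :
    ∃ (F : Type) (_ : Field F) (_ : Algebra L F), FiniteDimensional L F ∧
      ∃ (ζ : F) (δ : ι → F), IsPrimitiveRoot ζ (p ^ D) ∧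
        (∀ i, δ i ^ p ^ s = algebraMap L F (d i)) ∧
        ∀ (w : F) (x : L), x ≠ 0 → w ^ p ^ (s + 1) = algebraMap L F x →
          ∃ (j : ι → ℕ) (y : L), x = (∏ i, d i ^ (p * j i)) * y ^ p ^ (s + 1) := by
  classical
  have hpD : NeZero (p ^ D) := ⟨pow_ne_zero _ hp.ne_zero⟩
  let K' := CyclotomicField (p ^ D) L
  have hcyc : IsCyclotomicExtension {p ^ D} L K' := inferInstance
  have hfin : FiniteDimensional L K' := IsCyclotomicExtension.finiteDimensional {p ^ D} L _
  have hab : IsAbelianGalois L K' := IsCyclotomicExtension.isAbelianGalois {p ^ D} L K'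
  have hgal : IsGalois L K' := hab.toIsGalois
  have hch : CharZero K' := charZero_of_injective_algebraMap (algebraMap L K').injective
  obtain ⟨ζ, hζ⟩ := hcyc.exists_isPrimitiveRoot (Set.mem_singleton _) hpD.out
  -- the splitting field
  let P : K'[X] := ∏ i, (X ^ p ^ s - C (algebraMap L K' (d i)))
  have hps : 0 < p ^ s := pow_pos hp.pos _
  have hP0 : P ≠ 0 := Finset.prod_ne_zero_iff.2 fun i _ => X_pow_sub_C_ne_zero hps _
  let F := P.SplittingField
  have hFfin : FiniteDimensional K' F := inferInstance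
  have hFgal : IsGalois K' F := ⟨⟩
  have htow : IsScalarTower L K' F := inferInstance
  have hFL : FiniteDimensional L F := FiniteDimensional.trans L K' F
  have hsplit : (P.map (algebraMap K' F)).Splits := SplittingField.splits P
  -- the roots
  have hδ : ∀ i, ∃ y : F, y ^ p ^ s = algebraMap K' F (algebraMap L K' (d i)) := by
    intro i
    have hdvd : (X ^ p ^ s - C (algebraMap L K' (d i))).map (algebraMap K' F) ∣
        P.map (algebraMap K' F) :=
      Polynomial.map_dvd _ (Finset.dvd_prod_of_mem _ (Finset.mem_univ i))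
    have h2 : ((X ^ p ^ s - C (algebraMap L K' (d i))).map (algebraMap K' F)).Splits :=
      hsplit.of_dvd (Polynomial.map_ne_zero hP0) hdvd
    obtain ⟨y, hy⟩ := h2.exists_eval_eq_zero (by
      rw [degree_map, degree_X_pow_sub_C hps]
      exact_mod_cast hps.ne')
    refine ⟨y, ?_⟩
    rw [Polynomial.map_sub, Polynomial.map_pow, map_X, map_C, eval_sub, eval_pow, eval_X, eval_C,
      sub_eq_zero] at hy
    exact hy
  choose δ hδ using hδ
  have hdi : ∀ i, algebraMap K' F (algebraMap L K' (d i)) ≠ 0 := fun i => by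
    rw [Ne, map_eq_zero, map_eq_zero]
    exact hd i
  have hδ0 : ∀ i, δ i ≠ 0 := by
    intro i h
    have := hδ i
    rw [h, zero_pow hps.ne'] at this
    exact hdi i this.symm
  have hs : p ^ (s + 1) ∣ p ^ D := pow_dvd_pow _ hsD
  obtain ⟨m, hm⟩ := hs
  have hζ1 : IsPrimitiveRoot (ζ ^ m) (p ^ (s + 1)) := hζ.pow (pow_pos hp.pos _) (by
    rw [hm, mul_comm])
  have hs' : p ^ s ∣ p ^ (s + 1) := pow_dvd_pow _ (Nat.le_succ s)
  obtain ⟨m', hm'⟩ := hs'
  have hζ2 : IsPrimitiveRoot ((ζ ^ m) ^ m') (p ^ s) := hζ1.pow (pow_pos hp.pos _) (by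
    rw [hm', mul_comm])
  have hgen : Algebra.adjoin K' (Set.range δ) = ⊤ := by
    rw [eq_top_iff, ← IsSplittingField.adjoin_rootSet F P]
    refine Algebra.adjoin_le ?_
    intro y hy
    rw [mem_rootSet'] at hy
    obtain ⟨_, hy2⟩ := hy
    rw [map_prod, Finset.prod_eq_zero_iff] at hy2
    obtain ⟨i, _, hi⟩ := hy2
    rw [map_sub, map_pow, aeval_X, aeval_C, sub_eq_zero, ← hδ i] at hi
    have h1 : (y / δ i) ^ p ^ s = 1 := by
      rw [div_pow, hi, div_self (pow_ne_zero _ (hδ0 i))]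
    obtain ⟨a, ha⟩ := root_mem (F := F) hps hζ2 h1
    have h2 : y = algebraMap K' F a * δ i := by rw [ha, div_mul_cancel₀ _ (hδ0 i)]
    rw [h2]
    exact Subalgebra.mul_mem _ (Subalgebra.algebraMap_mem _ a)
      (Algebra.subset_adjoin ⟨i, rfl⟩)
  refine ⟨F, inferInstance, inferInstance, hFL, algebraMap K' F ζ, δ,
    hζ.map_of_injective (algebraMap K' F).injective,
    fun i => by rw [hδ i, IsScalarTower.algebraMap_apply L K' F], ?_⟩
  intro w x hx hw
  have hN : 0 < p ^ (s + 1) := pow_pos hp.pos _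
  have hx' : algebraMap L F x = algebraMap K' F (algebraMap L K' x) :=
    IsScalarTower.algebraMap_apply L K' F x
  have hw0 : w ≠ 0 := by
    rintro rfl
    rw [zero_pow hN.ne'] at hw
    exact hx ((map_eq_zero (algebraMap L F)).1 hw.symm)
  obtain ⟨j, c, hjc⟩ := kummer (F := F) hN hζ1 δ hδ0 (fun i => ⟨algebraMap L K' (d i) ^ p, by
      rw [map_pow, ← hδ i, ← pow_mul, pow_succ]⟩) hgen w hw0 ⟨algebraMap L K' x, by
      rw [hw, hx']⟩
  -- `c ^ N` is in `L`
  have hprod : (∏ i, d i ^ (p * j i)) ≠ 0 :=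
    Finset.prod_ne_zero_iff.2 fun i _ => pow_ne_zero _ (hd i)
  have hc : algebraMap L K' (x / ∏ i, d i ^ (p * j i)) = c ^ p ^ (s + 1) := by
    apply (algebraMap K' F).injective
    have h1 : algebraMap K' F (algebraMap L K' x) =
        algebraMap K' F (algebraMap L K' (∏ i, d i ^ (p * j i))) *
          algebraMap K' F c ^ p ^ (s + 1) := by
      rw [← hx', ← hw, hjc, mul_pow, ← Finset.prod_pow, map_prod, map_prod]
      congr 1
      refine Finset.prod_congr rfl fun i _ => ?_
      rw [map_pow, map_pow, ← hδ i, ← pow_mul, ← pow_mul, pow_succ]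
      congr 1
      ring
    rw [map_div₀, map_div₀, h1, map_pow, mul_div_cancel_left₀]
    rw [Ne, map_eq_zero, map_eq_zero]
    exact hprod
  -- an automorphism that moves the `p`-th roots of unity
  have hpd : p ∣ p ^ D := dvd_pow_self _ (by omega)
  obtain ⟨k, hk⟩ := hpd
  have hω : IsPrimitiveRoot (ζ ^ k) p := hζ.pow (pow_pos hp.pos _) (by rw [hk, mul_comm])
  obtain ⟨h, hh⟩ : ∃ h : Gal(K'/L), h (ζ ^ k) ≠ ζ ^ k := by
    by_contra hcon
    push Not at hcon
    have h1 := (IsGalois.mem_bot_iff_fixed (F := L) (E := K') (ζ ^ k)).2 hcon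
    rw [IntermediateField.mem_bot] at h1
    obtain ⟨z, hz'⟩ := h1
    have h2 : z = 1 := hz z ((algebraMap L K').injective (by
      rw [map_pow, hz', hω.pow_eq_one, map_one]))
    rw [h2, map_one] at hz'
    exact hω.ne_one hp.one_lt hz'.symm
  have hcen : ∀ g : Gal(K'/L), g * h = h * g := fun g =>
    hab.toIsMulCommutative.is_comm.comm g h
  have hfix : ∀ ε : K', ε ^ p ^ (s + 1) = 1 → h ε = ε → ε = 1 := by
    intro ε hε1 hε2
    by_contra hne
    -- the order of `ε` is a positive power of `p`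
    obtain ⟨t, ht, ht2⟩ := (Nat.dvd_prime_pow hp).1 (orderOf_dvd_of_pow_eq_one hε1)
    have ht0 : t ≠ 0 := by
      rintro rfl
      rw [pow_zero, orderOf_eq_one_iff] at ht2
      exact hne ht2
    obtain ⟨t', rfl⟩ := Nat.exists_eq_succ_of_ne_zero ht0
    have h1 : IsPrimitiveRoot (ε ^ p ^ t') p := by
      have h2 : IsPrimitiveRoot ε (p ^ (t' + 1)) := by
        rw [← Nat.succ_eq_add_one, ← ht2]; exact IsPrimitiveRoot.orderOf ε
      exact h2.pow (pow_pos hp.pos _) (pow_succ p t')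
    have : NeZero p := ⟨hp.ne_zero⟩
    obtain ⟨i, _, hi⟩ := h1.eq_pow_of_pow_eq_one hω.pow_eq_one
    apply hh
    rw [← hi, map_pow, map_pow, hε2]
  obtain ⟨y, hy⟩ := schinzel hN h hcen hfix _ c hc
  refine ⟨j, y, ?_⟩
  rw [← hy, mul_div_cancel₀ _ hprod]

end Pool.Agent.ZD
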