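import Pool.Agent.Lib.ZD.Ext
import Pool.Agent.Lib.ZD.Tower

/-!
# Existence of auxiliary primes
-/

set_option autoImplicit false

namespace Pool.Agent.ZD

open NumberField IsDedekindDomain Filter Topology Polynomial

section

variable {F : Type} [Field F] [NumberField F]

/-- finitely many primes contain a given nonzero element -/
theorem finite_mem (c : 𝓞 F) (hc : c ≠ 0) :
    {v : HeightOneSpectrum (𝓞 F) | c ∈ v.asIdeal}.Finite := by
  have h := Ideal.finite_factors (I := Ideal.span {c}) (by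
    rw [Ne, Ideal.zero_eq_bot, Ideal.span_singleton_eq_bot]; exact hc)
  refine h.subset fun v hv => ?_
  show v.asIdeal ∣ Ideal.span {c}
  rw [Ideal.dvd_span_singleton]
  exact hv

/-- finitely many primes have a nonzero valuation at a given nonzero element -/
theorem finite_val (x : F) (hx : x ≠ 0) :
    {v : HeightOneSpectrum (𝓞 F) | v.valuation F x ≠ 1}.Finite := by
  obtain ⟨a, b, hb, rfl⟩ := IsFractionRing.div_surjective (A := 𝓞 F) x
  have hb0 : b ≠ 0 := nonZeroDivisors.ne_zero hb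
  have ha0 : a ≠ 0 := by
    rintro rfl
    simp at hx
  refine ((finite_mem a ha0).union (finite_mem b hb0)).subset ?_
  intro v hv
  by_contra hcon
  rw [Set.mem_union, not_or] at hcon
  apply hv
  rw [map_div₀]
  have h1 : v.valuation F (algebraMap (𝓞 F) F a) = 1 := by
    refine le_antisymm (v.valuation_le_one a) ?_
    rw [← not_lt, HeightOneSpectrum.valuation_lt_one_iff_mem]
    exact hcon.1
  have h2 : v.valuation F (algebraMap (𝓞 F) F b) = 1 := by
    refine le_antisymm (v.valuation_le_one b) ?_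
    rw [← not_lt, HeightOneSpectrum.valuation_lt_one_iff_mem]
    exact hcon.2
  rw [h1, h2, div_one]

theorem val_sub_comm (v : HeightOneSpectrum (𝓞 F)) (x y : F) :
    v.valuation F (x - y) = v.valuation F (y - x) := Valuation.map_sub_swap _ _ _

/-- a congruence with a unit gives a unit -/
theorem val_eq_one_of_sub {v : HeightOneSpectrum (𝓞 F)} {x y : F} (hx : v.valuation F x = 1)
    (h : v.valuation F (x - y) < 1) : v.valuation F y = 1 := by
  have h1 : y = x - (x - y) := by ring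
  rw [h1, Valuation.map_sub_eq_of_lt_left _ (by rw [hx]; exact h), hx]

theorem val_pow_eq_one {v : HeightOneSpectrum (𝓞 F)} {y : F} {n : ℕ} (hn : n ≠ 0)
    (h : v.valuation F (y ^ n) = 1) : v.valuation F y = 1 := by
  rw [map_pow] at h
  exact (pow_eq_one_iff_of_nonneg zero_le hn).1 h

/-- congruences can be raised to powers -/
theorem val_pow_sub {v : HeightOneSpectrum (𝓞 F)} {x y : F} (hx : v.valuation F x ≤ 1)
    (hy : v.valuation F y ≤ 1) (h : v.valuation F (x - y) < 1) (n : ℕ) :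
    v.valuation F (x ^ n - y ^ n) < 1 := by
  induction n with
  | zero => simp
  | succ n ih =>
    have e : x ^ (n + 1) - y ^ (n + 1) = x * (x ^ n - y ^ n) + (x - y) * y ^ n := by ring
    rw [e]
    refine Valuation.map_add_lt _ ?_ ?_
    · rw [map_mul]
      exact lt_of_le_of_lt (mul_le_of_le_one_left' hx) ih
    · rw [map_mul, map_pow]
      exact lt_of_le_of_lt (mul_le_of_le_one_right' (pow_le_one' hy n)) h

theorem val_trans {v : HeightOneSpectrum (𝓞 F)} {x y z : F} (h1 : v.valuation F (x - y) < 1)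
    (h2 : v.valuation F (y - z) < 1) : v.valuation F (x - z) < 1 := by
  have e : x - z = (x - y) + (y - z) := by ring
  rw [e]
  exact Valuation.map_add_lt _ h1 h2

theorem exists_int_approx (v : HeightOneSpectrum (𝓞 F)) {x : F} (hx : v.valuation F x ≤ 1) :
    ∃ a : 𝓞 F, v.valuation F (algebraMap (𝓞 F) F a - x) < 1 := by
  have := v.exists_valuation_sub_lt_of_integer hx 1
  simpa using this

/-- **The `p`-th powers.** If `x` is not a `p`-th power in `F` then it is a `p`-th power modulo a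
set of primes of upper density at most `1/p`. -/
theorem Up_pow {p : ℕ} (hp : p.Prime) {ζ : F} (hζ : IsPrimitiveRoot ζ p) (x : F) (hx0 : x ≠ 0)
    (hx : ∀ y : F, y ^ p ≠ x) :
    Up F {v | v.valuation F x = 1 ∧ ∃ y : F, v.valuation F (x - y ^ p) < 1} (1 / p) := by
  have hNZ : NeZero p := ⟨hp.ne_zero⟩
  obtain ⟨⟨m, hm⟩, a, ha⟩ := IsLocalization.exists_integer_multiple
    (nonZeroDivisors (𝓞 F)) x
  have hm0 : m ≠ 0 := nonZeroDivisors.ne_zero hm
  have hmF : algebraMap (𝓞 F) F m ≠ 0 := by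
    rw [Ne, FaithfulSMul.algebraMap_eq_zero_iff]
    exact hm0
  have ha' : algebraMap (𝓞 F) F a = algebraMap (𝓞 F) F m * x := by
    rw [ha, Algebra.smul_def]
  obtain ⟨b, hb⟩ : ∃ b : 𝓞 F, algebraMap (𝓞 F) F b = algebraMap (𝓞 F) F m ^ p * x := by
    refine ⟨m ^ (p - 1) * a, ?_⟩
    rw [map_mul, map_pow, ha', ← mul_assoc, ← pow_succ, Nat.sub_add_cancel hp.one_le]
  have hb0 : b ≠ 0 := by
    rintro rfl
    rw [map_zero] at hb
    exact (mul_ne_zero (pow_ne_zero _ hmF) hx0) hb.symm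
  -- the polynomial
  have hmon : (X ^ p - C b : (𝓞 F)[X]).Monic := monic_X_pow_sub_C b hp.ne_zero
  have hirr : Irreducible ((X ^ p - C b : (𝓞 F)[X]).map (algebraMap (𝓞 F) F)) := by
    rw [Polynomial.map_sub, Polynomial.map_pow, map_X, map_C]
    refine X_pow_sub_C_irreducible_of_prime hp fun y hy => ?_
    apply hx (y / algebraMap (𝓞 F) F m)
    rw [div_pow, hy, hb, mul_div_cancel_left₀ _ (pow_ne_zero _ hmF)]
  have hU := Up_SplitsMod (X ^ p - C b) hmon hirr
  rw [natDegree_X_pow_sub_C] at hU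
  have hp0 : (p : 𝓞 F) ≠ 0 := by exact_mod_cast hp.ne_zero
  have hU2 := hU.union (Dn_finite ((finite_mem m hm0).union (finite_mem (p : 𝓞 F) hp0))).up
  rw [add_zero] at hU2
  refine hU2.mono ?_
  rintro v ⟨hv1, y, hy⟩
  by_cases hmv : m ∈ v.asIdeal
  · exact Or.inr (Or.inl hmv)
  by_cases hpv : (p : 𝓞 F) ∈ v.asIdeal
  · exact Or.inr (Or.inr hpv)
  left
  let _ : Field (𝓞 F ⧸ v.asIdeal) := @Ideal.Quotient.field _ _ v.asIdeal v.isMaximal
  have hpk : NeZero (p : 𝓞 F ⧸ v.asIdeal) := ⟨by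
    have : (p : 𝓞 F ⧸ v.asIdeal) = Ideal.Quotient.mk v.asIdeal (p : 𝓞 F) := by simp
    rw [this, Ne, Ideal.Quotient.eq_zero_iff_mem]
    exact hpv⟩
  -- a primitive root of unity modulo `v`
  have hζ' : IsPrimitiveRoot (Ideal.Quotient.mk v.asIdeal hζ.toInteger) p := by
    rw [← isRoot_cyclotomic_iff, ← map_cyclotomic p (Ideal.Quotient.mk v.asIdeal)]
    refine IsRoot.map ?_
    exact hζ.toInteger_isPrimitiveRoot.isRoot_cyclotomic hp.pos
  -- an integral root modulo `v`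
  have hmv1 : v.valuation F (algebraMap (𝓞 F) F m) = 1 := by
    refine le_antisymm (v.valuation_le_one m) ?_
    rw [← not_lt, HeightOneSpectrum.valuation_lt_one_iff_mem]
    exact hmv
  have hy1 : v.valuation F y = 1 := val_pow_eq_one hp.ne_zero (val_eq_one_of_sub hv1 hy)
  have hmy : v.valuation F (algebraMap (𝓞 F) F m * y) = 1 := by rw [map_mul, hmv1, hy1, one_mul]
  obtain ⟨z, hz⟩ := exists_int_approx v hmy.le
  have h1 : v.valuation F (algebraMap (𝓞 F) F z ^ p - (algebraMap (𝓞 F) F m * y) ^ p) < 1 :=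
    val_pow_sub (v.valuation_le_one z) hmy.le hz p
  have h2 : v.valuation F ((algebraMap (𝓞 F) F m * y) ^ p - algebraMap (𝓞 F) F b) < 1 := by
    rw [hb, mul_pow, ← mul_sub, map_mul, map_pow, hmv1, one_pow, one_mul, val_sub_comm]
    exact hy
  have h3 := val_trans h1 h2
  rw [← map_pow, ← map_sub, HeightOneSpectrum.valuation_lt_one_iff_mem,
    ← Ideal.Quotient.eq_zero_iff_mem, map_sub, map_pow, sub_eq_zero] at h3
  -- the polynomial splits
  refine ⟨(Multiset.range p).map fun i => Ideal.Quotient.mk v.asIdeal hζ.toInteger ^ i *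
    Ideal.Quotient.mk v.asIdeal z, ?_⟩
  rw [Polynomial.map_sub, Polynomial.map_pow, map_X, map_C, X_pow_sub_C_eq_prod hζ' hp.pos h3,
    Multiset.map_map]
  rfl

end

/-! ## From a prime of the extension to the base -/

section

variable {L F : Type} [Field L] [NumberField L] [Field F] [NumberField F] [Algebra L F]

theorem val_under (Q : HeightOneSpectrum (𝓞 F)) (x : L) :
    (Q.valuation F (algebraMap L F x) < 1 ↔ (Q.under (𝓞 L)).valuation L x < 1) ∧
    (Q.valuation F (algebraMap L F x) = 1 ↔ (Q.under (𝓞 L)).valuation L x = 1) := by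
  have hl : Q.asIdeal.LiesOver (Q.under (𝓞 L)).asIdeal := liesOver (v := Q.under (𝓞 L)) rfl
  have h := HeightOneSpectrum.valuation_liesOver F (Q.under (𝓞 L)) Q x
  have he := Ideal.IsDedekindDomain.ramificationIdx'_ne_zero_of_liesOver Q.asIdeal
    (Q.under (𝓞 L)).ne_bot
  rw [← h]
  exact ⟨pow_lt_one_iff_of_nonneg zero_le he, pow_eq_one_iff_of_nonneg zero_le he⟩

/-- A prime of degree one: the residue fields agree. -/
theorem under_deg_one (Q : HeightOneSpectrum (𝓞 F)) (hQ : (nm Q).Prime) :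
    nm (Q.under (𝓞 L)) = nm Q ∧
    ∀ z : 𝓞 F, ∃ y : 𝓞 L, z - algebraMap (𝓞 L) (𝓞 F) y ∈ Q.asIdeal := by
  have hl : Q.asIdeal.LiesOver (Q.under (𝓞 L)).asIdeal := liesOver (v := Q.under (𝓞 L)) rfl
  have h1 := Ideal.absNorm_eq_pow_inertiaDeg'_of_liesOver Q.asIdeal (Q.under (𝓞 L)).asIdeal
    (Q.under (𝓞 L)).isPrime (Q.under (𝓞 L)).ne_bot
  have h2 : nm (Q.under (𝓞 L)) = nm Q := by
    have h3 : nm Q = nm (Q.under (𝓞 L)) ^
      (Q.under (𝓞 L)).asIdeal.inertiaDeg' Q.asIdeal := h1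
    have h4 : (nm (Q.under (𝓞 L)) ^
      (Q.under (𝓞 L)).asIdeal.inertiaDeg' Q.asIdeal).Prime := by rw [← h3]; exact hQ
    rw [h3, Nat.Prime.eq_one_of_pow h4, pow_one]
  refine ⟨h2, ?_⟩
  have hmL : (Q.under (𝓞 L)).asIdeal.IsMaximal := (Q.under (𝓞 L)).isMaximal
  have hmF : Q.asIdeal.IsMaximal := Q.isMaximal
  let φ : (𝓞 L ⧸ (Q.under (𝓞 L)).asIdeal) →+* (𝓞 F ⧸ Q.asIdeal) :=
    Ideal.quotientMap Q.asIdeal (algebraMap (𝓞 L) (𝓞 F)) (by
      exact le_rfl)
  let _ : Field (𝓞 L ⧸ (Q.under (𝓞 L)).asIdeal) := Ideal.Quotient.field _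
  let _ : Field (𝓞 F ⧸ Q.asIdeal) := Ideal.Quotient.field _
  have hinj : Function.Injective φ := φ.injective
  have hfL : Finite (𝓞 L ⧸ (Q.under (𝓞 L)).asIdeal) :=
    Ideal.finiteQuotientOfFreeOfNeBot _ (Q.under (𝓞 L)).ne_bot
  have hfF : Finite (𝓞 F ⧸ Q.asIdeal) := Ideal.finiteQuotientOfFreeOfNeBot _ Q.ne_bot
  have hcard : Nat.card (𝓞 L ⧸ (Q.under (𝓞 L)).asIdeal) = Nat.card (𝓞 F ⧸ Q.asIdeal) := h2
  have hbij : Function.Bijective φ :=
    (Nat.bijective_iff_injective_and_card φ).2 ⟨hinj, hcard⟩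
  intro z
  obtain ⟨y, hy⟩ := hbij.2 (Ideal.Quotient.mk Q.asIdeal z)
  obtain ⟨y, rfl⟩ := Ideal.Quotient.mk_surjective y
  refine ⟨y, ?_⟩
  rw [← Ideal.Quotient.eq_zero_iff_mem, map_sub, ← hy, sub_eq_zero]
  rfl

end

/-- The order (the additive valuation). -/
noncomputable def ord {L : Type} [Field L] [NumberField L] (v : HeightOneSpectrum (𝓞 L)) (x : L) :
    ℤ := - WithZero.log (v.valuation L x)

section

variable {L : Type} [Field L] [NumberField L]

theorem ord_mul (v : HeightOneSpectrum (𝓞 L)) {x y : L} (hx : x ≠ 0) (hy : y ≠ 0) :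
    ord v (x * y) = ord v x + ord v y := by
  unfold ord
  rw [map_mul, WithZero.log_mul]
  · ring
  · rwa [Ne, map_eq_zero]
  · rwa [Ne, map_eq_zero]

theorem ord_one (v : HeightOneSpectrum (𝓞 L)) : ord v (1 : L) = 0 := by
  unfold ord
  rw [map_one, WithZero.log_one, neg_zero]

theorem ord_pow (v : HeightOneSpectrum (𝓞 L)) {x : L} (hx : x ≠ 0) (n : ℕ) :
    ord v (x ^ n) = n * ord v x := by
  induction n with
  | zero => rw [pow_zero, ord_one]; simp
  | succ n ih =>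
    rw [pow_succ, ord_mul v (pow_ne_zero _ hx) hx, ih]
    push_cast
    ring

theorem ord_prod (v : HeightOneSpectrum (𝓞 L)) {ι : Type} (s : Finset ι) (f : ι → L)
    (hf : ∀ i, f i ≠ 0) : ord v (∏ i ∈ s, f i) = ∑ i ∈ s, ord v (f i) := by
  classical
  induction s using Finset.induction_on with
  | empty => rw [Finset.prod_empty, Finset.sum_empty, ord_one]
  | insert a s ha ih =>
    rw [Finset.prod_insert ha, Finset.sum_insert ha,
      ord_mul v (hf a) (Finset.prod_ne_zero_iff.2 fun i _ => hf i), ih]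

theorem ord_eq_zero_iff (v : HeightOneSpectrum (𝓞 L)) {x : L} (hx : x ≠ 0) :
    ord v x = 0 ↔ v.valuation L x = 1 := by
  unfold ord
  rw [neg_eq_zero]
  have h0 : v.valuation L x ≠ 0 := by rwa [Ne, map_eq_zero]
  constructor
  · intro h
    rw [← WithZero.exp_log h0, h, WithZero.exp_zero]
  · intro h
    rw [h, WithZero.log_one]

end

/-- **Existence of auxiliary primes.** -/
theorem exists_aux (L : Type) [Field L] [NumberField L] {p : ℕ} (hp : p.Prime)
    (hz : ∀ z : L, z ^ p = 1 → z = 1) {D s : ℕ} (hsD : s < D) {ι : Type} [Fintype ι]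
    (d : ι → L) (hd : ∀ i, d i ≠ 0) (i₀ : ι) (b : L) (hb : b ≠ 0)
    (u₁ u₂ : HeightOneSpectrum (𝓞 L)) (h1 : ¬ (p : ℤ) ∣ ord u₁ (d i₀))
    (h2 : ∀ i, ord u₂ (d i) = 0) (h3 : ¬ (p : ℤ) ∣ ord u₂ b) :
    {q : HeightOneSpectrum (𝓞 L) | (nm q).Prime ∧ p ^ D ∣ nm q - 1 ∧
      (∀ i, q.valuation L (d i) = 1) ∧ q.valuation L b = 1 ∧
      (∀ i, ∃ y : 𝓞 L, q.valuation L (d i - algebraMap (𝓞 L) L y ^ p ^ s) < 1) ∧
      (∀ y : L, ¬ q.valuation L (d i₀ - y ^ p ^ (s + 1)) < 1) ∧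
      (∀ y : L, ¬ q.valuation L (b - y ^ p) < 1)}.Infinite := by
  classical
  obtain ⟨F, _, _, hfin, ζ, δ, hζ, hδ, hpow⟩ := tower L hp hz hsD d hd
  have hNF : NumberField F := NumberField.of_module_finite L F
  have hps : p ^ s ≠ 0 := pow_ne_zero _ hp.ne_zero
  have hpN : p ^ (s + 1) ≠ 0 := pow_ne_zero _ hp.ne_zero
  have hdF : ∀ i, algebraMap L F (d i) ≠ 0 := fun i => by
    rw [Ne, map_eq_zero]; exact hd i
  have hbF : algebraMap L F b ≠ 0 := by
    rw [Ne, map_eq_zero]; exact hb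
  have hδ0 : ∀ i, δ i ≠ 0 := by
    intro i h
    have := hδ i
    rw [h, zero_pow hps] at this
    exact hdF i this.symm
  have hprod : ∀ j : ι → ℕ, (∏ i, d i ^ (p * j i)) ≠ 0 := fun j =>
    Finset.prod_ne_zero_iff.2 fun i _ => pow_ne_zero _ (hd i)
  -- `p` is odd
  have hp3 : 3 ≤ p := by
    have h2' := hp.two_le
    rcases Nat.lt_or_ge 2 p with h | h
    · exact h
    · exfalso
      have hp2 : p = 2 := by omega
      have h4 := hz (-1) (by rw [hp2]; ring)
      have h5 : (2 : L) = 0 := by linear_combination -h4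
      exact two_ne_zero h5
  -- `δ i₀` and `b` are not `p`-th powers
  have hn1 : ∀ y : F, y ^ p ≠ δ i₀ := by
    intro y hy
    have h4 : y ^ p ^ (s + 1) = algebraMap L F (d i₀) := by
      rw [pow_succ', pow_mul, hy, hδ]
    obtain ⟨j, c, hc⟩ := hpow y (d i₀) (hd i₀) h4
    have hc0 : c ≠ 0 := by
      rintro rfl
      rw [zero_pow hpN, mul_zero] at hc
      exact hd i₀ hc
    apply h1
    rw [hc, ord_mul _ (hprod j) (pow_ne_zero _ hc0), ord_prod _ _ _ fun i => pow_ne_zero _ (hd i),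
      ord_pow _ hc0]
    refine dvd_add (Finset.dvd_sum fun i _ => ?_) ?_
    · rw [ord_pow _ (hd i)]
      push_cast
      exact Dvd.intro _ (mul_assoc _ _ _).symm
    · push_cast
      exact Dvd.dvd.mul_right (dvd_pow_self _ (Nat.succ_ne_zero s)) _
  have hn2 : ∀ y : F, y ^ p ≠ algebraMap L F b := by
    intro y hy
    have h4 : y ^ p ^ (s + 1) = algebraMap L F (b ^ p ^ s) := by
      rw [pow_succ', pow_mul, hy, map_pow]
    obtain ⟨j, c, hc⟩ := hpow y (b ^ p ^ s) (pow_ne_zero _ hb) h4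
    have hc0 : c ≠ 0 := by
      rintro rfl
      rw [zero_pow hpN, mul_zero] at hc
      exact (pow_ne_zero _ hb) hc
    apply h3
    have h5 := congrArg (ord u₂) hc
    rw [ord_mul _ (hprod j) (pow_ne_zero _ hc0), ord_prod _ _ _ fun i => pow_ne_zero _ (hd i),
      ord_pow _ hc0, ord_pow _ hb] at h5
    have h6 : ∑ i, ord u₂ (d i ^ (p * j i)) = 0 := Finset.sum_eq_zero fun i _ => by
      rw [ord_pow _ (hd i), h2 i, mul_zero]
    rw [h6, zero_add] at h5
    push_cast at h5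
    rw [pow_succ, mul_assoc] at h5
    have h7 : ((p : ℤ) ^ s) ≠ 0 := pow_ne_zero _ (by exact_mod_cast hp.ne_zero)
    exact ⟨ord u₂ c, mul_left_cancel₀ h7 h5⟩
  -- the primes of `F`
  have hζp : IsPrimitiveRoot (ζ ^ p ^ (D - 1)) p := hζ.pow (pow_pos hp.pos _) (by
    rw [← pow_succ]
    congr 1
    omega)
  have hU1 := Up_pow hp hζp (δ i₀) (hδ0 i₀) hn1
  have hU2 := Up_pow hp hζp (algebraMap L F b) hbF hn2
  have hlt : (1 : ℝ) / p + 1 / p < 1 := by
    have : (3 : ℝ) ≤ p := by exact_mod_cast hp3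
    rw [← add_div, div_lt_one (by linarith)]
    linarith
  have hinf := infinite_deg_one (Dn_univ (K := F)) (hU1.union hU2) hlt
  have hpF : (p : 𝓞 F) ≠ 0 := by exact_mod_cast hp.ne_zero
  let Bad : Set (HeightOneSpectrum (𝓞 F)) := {Q | (p : 𝓞 F) ∈ Q.asIdeal} ∪
    ((⋃ i, {Q | Q.valuation F (δ i) ≠ 1}) ∪ {Q | Q.valuation F (algebraMap L F b) ≠ 1})
  have hBad : Bad.Finite := (finite_mem _ hpF).union
    ((Set.finite_iUnion fun i => finite_val _ (hδ0 i)).union (finite_val _ hbF))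
  have hinf2 := hinf.sdiff hBad
  -- go down
  have hfib : ∀ q : HeightOneSpectrum (𝓞 L), {Q : HeightOneSpectrum (𝓞 F) |
      Q.under (𝓞 L) = q}.Finite := fun q => finite_abv q
  have himg : ((fun Q : HeightOneSpectrum (𝓞 F) => Q.under (𝓞 L)) ''
      ({v | v ∈ Set.univ ∧ v ∉ ({v : HeightOneSpectrum (𝓞 F) | v.valuation F (δ i₀) = 1 ∧
        ∃ y : F, v.valuation F (δ i₀ - y ^ p) < 1} ∪ {v | v.valuation F (algebraMap L F b) = 1 ∧
        ∃ y : F, v.valuation F (algebraMap L F b - y ^ p) < 1}) ∧ (nm v).Prime} \ Bad)).Infinite := by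
    intro hfi
    apply hinf2
    refine (hfi.biUnion fun q _ => hfib q).subset ?_
    intro Q hQ
    rw [Set.mem_iUnion₂]
    exact ⟨_, ⟨Q, hQ, rfl⟩, rfl⟩
  refine himg.mono ?_
  rintro _ ⟨Q, ⟨⟨_, hQU, hQp⟩, hQB⟩, rfl⟩
  rw [Set.mem_union, not_or] at hQU
  have hQpp : (p : 𝓞 F) ∉ Q.asIdeal := fun h => hQB (Or.inl h)
  have hQδ : ∀ i, Q.valuation F (δ i) = 1 := by
    intro i
    by_contra h
    exact hQB (Or.inr (Or.inl (Set.mem_iUnion.2 ⟨i, h⟩)))
  have hQb : Q.valuation F (algebraMap L F b) = 1 := by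
    by_contra h
    exact hQB (Or.inr (Or.inr h))
  have hnot1 : ∀ y : F, ¬ Q.valuation F (δ i₀ - y ^ p) < 1 := fun y hy =>
    hQU.1 ⟨hQδ i₀, y, hy⟩
  have hnot2 : ∀ y : F, ¬ Q.valuation F (algebraMap L F b - y ^ p) < 1 := fun y hy =>
    hQU.2 ⟨hQb, y, hy⟩
  obtain ⟨hnm, hres⟩ := under_deg_one (L := L) Q hQp
  refine ⟨by rw [hnm]; exact hQp, ?_, ?_, ?_, ?_, ?_, ?_⟩
  · -- the norm
    rw [hnm]
    let _ : Field (𝓞 F ⧸ Q.asIdeal) := @Ideal.Quotient.field _ _ Q.asIdeal Q.isMaximal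
    have hfF : Finite (𝓞 F ⧸ Q.asIdeal) := Ideal.finiteQuotientOfFreeOfNeBot _ Q.ne_bot
    have : Fintype (𝓞 F ⧸ Q.asIdeal) := Fintype.ofFinite _
    have hNZ : NeZero (p ^ D) := ⟨pow_ne_zero _ hp.ne_zero⟩
    have hpk : NeZero ((p ^ D : ℕ) : 𝓞 F ⧸ Q.asIdeal) := ⟨by
      have h4 : ((p ^ D : ℕ) : 𝓞 F ⧸ Q.asIdeal) =
        Ideal.Quotient.mk Q.asIdeal (p : 𝓞 F) ^ D := by simp
      rw [h4]
      refine pow_ne_zero _ ?_
      rw [Ne, Ideal.Quotient.eq_zero_iff_mem]
      exact hQpp⟩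
    have hζ' : IsPrimitiveRoot (Ideal.Quotient.mk Q.asIdeal hζ.toInteger) (p ^ D) := by
      rw [← isRoot_cyclotomic_iff, ← map_cyclotomic (p ^ D) (Ideal.Quotient.mk Q.asIdeal)]
      refine IsRoot.map ?_
      exact hζ.toInteger_isPrimitiveRoot.isRoot_cyclotomic (pow_pos hp.pos _)
    have h5 := FiniteField.pow_card_sub_one_eq_one (Ideal.Quotient.mk Q.asIdeal hζ.toInteger)
      (hζ'.ne_zero (pow_ne_zero _ hp.ne_zero))
    have h6 := hζ'.dvd_of_pow_eq_one _ h5
    have h7 : Fintype.card (𝓞 F ⧸ Q.asIdeal) = nm Q := by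
      rw [← Nat.card_eq_fintype_card]
      rfl
    rwa [h7] at h6
  · intro i
    rw [← (val_under Q (d i)).2, ← hδ i, map_pow, hQδ i, one_pow]
  · rw [← (val_under Q b).2]
    exact hQb
  · intro i
    obtain ⟨z, hz'⟩ := exists_int_approx Q (hQδ i).le
    obtain ⟨y, hy⟩ := hres z
    refine ⟨y, ?_⟩
    have h4 : Q.valuation F (δ i - algebraMap (𝓞 F) F (algebraMap (𝓞 L) (𝓞 F) y)) < 1 := by
      refine val_trans (y := algebraMap (𝓞 F) F z) ?_ ?_
      · rw [val_sub_comm]; exact hz'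
      · rw [← map_sub, HeightOneSpectrum.valuation_lt_one_iff_mem]
        exact hy
    have h5 := val_pow_sub (hQδ i).le (Q.valuation_le_one _) h4 (p ^ s)
    rw [← (val_under Q _).1, map_sub, map_pow, ← hδ i]
    have h6 : algebraMap L F (algebraMap (𝓞 L) L y) =
        algebraMap (𝓞 F) F (algebraMap (𝓞 L) (𝓞 F) y) := by
      rw [← IsScalarTower.algebraMap_apply, ← IsScalarTower.algebraMap_apply]
    rw [h6]
    exact h5
  · intro y hy
    rw [← (val_under Q _).1, map_sub, map_pow, ← hδ i₀] at hy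
    set Y := algebraMap L F y with hY
    have hN1 : Q.valuation F (δ i₀ ^ p ^ s) = 1 := by rw [map_pow, hQδ, one_pow]
    have hY1 : Q.valuation F Y = 1 := val_pow_eq_one hpN (val_eq_one_of_sub hN1 hy)
    have hY0 : Y ≠ 0 := by
      intro h
      rw [h, map_zero] at hY1
      exact zero_ne_one hY1
    -- the quotient
    set u := δ i₀ / Y ^ p with hu
    have hu1 : Q.valuation F u = 1 := by
      rw [hu, map_div₀, map_pow, hQδ, hY1, one_pow, div_one]
    have hup : Q.valuation F (u ^ p ^ s - 1) < 1 := by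
      have e : u ^ p ^ s - 1 = (δ i₀ ^ p ^ s - Y ^ p ^ (s + 1)) / Y ^ p ^ (s + 1) := by
        rw [hu, div_pow, ← pow_mul, ← pow_succ', sub_div, div_self (pow_ne_zero _ hY0)]
      rw [e, map_div₀, map_pow, hY1, one_pow, div_one]
      exact hy
    have hξ : IsPrimitiveRoot (ζ ^ p ^ (D - s)) (p ^ s) := hζ.pow (pow_pos hp.pos _) (by
      rw [← pow_add]
      congr 1
      omega)
    have hfac : u ^ p ^ s - 1 = ∏ j ∈ Finset.range (p ^ s), (u - (ζ ^ p ^ (D - s)) ^ j) := by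
      have h5 := congrArg (Polynomial.eval u)
        (X_pow_sub_C_eq_prod hξ (pow_pos hp.pos s) (one_pow (p ^ s)) (a := 1))
      simpa [eval_prod] using h5
    obtain ⟨j, _, hj⟩ : ∃ j ∈ Finset.range (p ^ s),
        Q.valuation F (u - (ζ ^ p ^ (D - s)) ^ j) < 1 := by
      by_contra hcon
      push Not at hcon
      have h6 : 1 ≤ Q.valuation F (u ^ p ^ s - 1) := by
        rw [hfac, map_prod]
        exact Finset.one_le_prod' hcon
      exact absurd hup (not_lt.2 h6)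
    have hζu : ∀ k : ℕ, Q.valuation F (ζ ^ k) = 1 := by
      intro k
      have h7 : Q.valuation F ζ = 1 := by
        refine val_pow_eq_one (n := p ^ D) (pow_ne_zero _ hp.ne_zero) ?_
        rw [hζ.pow_eq_one, map_one]
      rw [map_pow, h7, one_pow]
    have e2 : (ζ ^ p ^ (D - s)) ^ j = (ζ ^ (p ^ (D - s - 1) * j)) ^ p := by
      rw [← pow_mul, ← pow_mul]
      congr 1
      have : D - s = (D - s - 1) + 1 := by omega
      conv_lhs => rw [this, pow_succ]
      ring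
    apply hnot1 (ζ ^ (p ^ (D - s - 1) * j) * Y)
    have e3 : δ i₀ - (ζ ^ (p ^ (D - s - 1) * j) * Y) ^ p =
        (u - (ζ ^ p ^ (D - s)) ^ j) * Y ^ p := by
      rw [e2, mul_pow, hu, sub_mul, div_mul_cancel₀ _ (pow_ne_zero _ hY0)]
    rw [e3, map_mul, map_pow, hY1, one_pow, mul_one]
    exact hj
  · intro y hy
    rw [← (val_under Q _).1, map_sub, map_pow] at hy
    exact hnot2 _ hy

end Pool.Agent.ZD
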