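import Pool.Agent.Lib.ZD.Split

/-!
# The primes of degree at least two have density zero
-/

set_option autoImplicit false

namespace Pool.Agent.ZD

open NumberField IsDedekindDomain Filter Topology

variable {K : Type} [Field K] [NumberField K]

/-- The norm of a prime is a power of the prime number below. -/
theorem nm_eq (v : HeightOneSpectrum (𝓞 K)) : ∃ p f : ℕ, p.Prime ∧ 0 < f ∧ nm v = p ^ f ∧
    v.asIdeal.LiesOver (Ideal.span {(p : ℤ)}) := by
  have hne : (v.asIdeal.under ℤ) ≠ ⊥ := Ideal.under_ne_bot ℤ v.ne_bot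
  obtain ⟨a, ha⟩ := (IsPrincipalIdealRing.principal (v.asIdeal.under ℤ)).principal
  have ha' : v.asIdeal.under ℤ = Ideal.span {a} := ha
  have hap : Prime a := by
    rw [← Ideal.span_singleton_prime]
    · rw [← ha']
      exact Ideal.IsPrime.under ℤ v.asIdeal
    · rintro rfl
      apply hne
      rw [ha']
      simp
  have h1 : Ideal.span {a} = Ideal.span {((a.natAbs : ℕ) : ℤ)} := by
    rw [Ideal.span_singleton_eq_span_singleton]
    exact Int.associated_natAbs a
  have h2 : v.asIdeal.LiesOver (Ideal.span {((a.natAbs : ℕ) : ℤ)}) := ⟨by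
    rw [← h1]; exact ha'.symm⟩
  have hp : a.natAbs.Prime := Int.prime_iff_natAbs_prime.1 hap
  have h3 := Ideal.absNorm_eq_pow_inertiaDeg' v.asIdeal hp
  refine ⟨a.natAbs, _, hp, ?_, h3, h2⟩
  rcases Nat.eq_zero_or_pos ((Ideal.span {((a.natAbs : ℕ) : ℤ)}).inertiaDeg' v.asIdeal) with h | h
  · rw [h, pow_zero] at h3
    have := two_le_nm v
    unfold nm at this
    omega
  · exact h

/-- the number of primes over a prime number -/
theorem ncard_le (p : ℕ) (hp : p.Prime) :
    (Ideal.primesOver (Ideal.span {(p : ℤ)}) (𝓞 K)).Finite ∧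
    (Ideal.primesOver (Ideal.span {(p : ℤ)}) (𝓞 K)).ncard ≤ Module.finrank ℚ K := by
  classical
  have hpz : Prime (p : ℤ) := Nat.prime_iff_prime_int.1 hp
  have hne : (Ideal.span {(p : ℤ)}) ≠ ⊥ := by
    rw [Ne, Ideal.span_singleton_eq_bot]
    exact_mod_cast hp.ne_zero
  have hmax : (Ideal.span {(p : ℤ)}).IsMaximal :=
    ((Ideal.span_singleton_prime (by exact_mod_cast hp.ne_zero)).2 hpz).isMaximal hne
  have h1 := Ideal.sum_ramification_inertia (𝓞 K) ℚ K hne
  have h2 : (IsDedekindDomain.primesOverFinset (Ideal.span {(p : ℤ)}) (𝓞 K) : Set (Ideal (𝓞 K))) =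
      Ideal.primesOver (Ideal.span {(p : ℤ)}) (𝓞 K) :=
    IsDedekindDomain.coe_primesOverFinset hne (𝓞 K)
  refine ⟨by rw [← h2]; exact Finset.finite_toSet _, ?_⟩
  rw [← h2, Set.ncard_coe_finset, ← h1, Finset.card_eq_sum_ones]
  refine Finset.sum_le_sum fun P hP => ?_
  have hP' : P ∈ Ideal.primesOver (Ideal.span {(p : ℤ)}) (𝓞 K) := by
    rw [← h2]; exact hP
  have := hP'.1
  have := hP'.2
  have e1 := Ideal.IsDedekindDomain.ramificationIdx'_ne_zero_of_liesOver P hne
  have e2 := Ideal.inertiaDeg'_ne_zero (Ideal.span {(p : ℤ)}) P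
  exact Nat.mul_pos (Nat.pos_of_ne_zero e1) (Nat.pos_of_ne_zero e2)

/-- **The primes whose norm is not a prime number have density zero.** -/
theorem Dn_deg (K : Type) [Field K] [NumberField K] :
    Dn K {v | ¬ (nm v).Prime} 0 := by
  classical
  set n := Module.finrank ℚ K with hn
  let Z : Set (HeightOneSpectrum (𝓞 K)) := {v | ¬ (nm v).Prime}
  let π : HeightOneSpectrum (𝓞 K) → ℕ := fun v => (nm v).minFac
  have hπ : ∀ (v : HeightOneSpectrum (𝓞 K)) (p f : ℕ), p.Prime → 0 < f → nm v = p ^ f →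
      π v = p := by
    intro v p f hp hf h
    show (nm v).minFac = p
    rw [h, Nat.Prime.pow_minFac hp hf.ne']
  have hsub : ∀ p : ℕ, (fun v : HeightOneSpectrum (𝓞 K) => v.asIdeal) '' {v | π v = p} ⊆
      Ideal.primesOver (Ideal.span {(p : ℤ)}) (𝓞 K) := by
    rintro p _ ⟨v, hv, rfl⟩
    obtain ⟨q, f, hq, hf, hnm, hl⟩ := nm_eq v
    have : q = p := by rw [← hπ v q f hq hf hnm]; exact hv
    rw [← this]
    exact ⟨v.isPrime, hl⟩
  have hprime : ∀ v : HeightOneSpectrum (𝓞 K), (π v).Prime := fun v =>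
    Nat.minFac_prime (by have := two_le_nm v; omega)
  have hfin : ∀ p : ℕ, {v : HeightOneSpectrum (𝓞 K) | π v = p}.Finite := by
    intro p
    by_cases hp : p.Prime
    · exact Set.Finite.of_finite_image ((ncard_le p hp).1.subset (hsub p)) asIdeal_inj.injOn
    · refine Set.Finite.subset Set.finite_empty ?_
      intro v hv
      exact hp (by rw [← show π v = p from hv]; exact hprime v)
  have hcard : ∀ p : ℕ, {v : HeightOneSpectrum (𝓞 K) | π v = p}.ncard ≤ n := by
    intro p
    by_cases hp : p.Prime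
    · rw [← Set.ncard_image_of_injective _ asIdeal_inj]
      exact (Set.ncard_le_ncard (hsub p) (ncard_le p hp).1).trans (ncard_le p hp).2
    · have : {v : HeightOneSpectrum (𝓞 K) | π v = p} = ∅ := by
        ext v
        simp only [Set.mem_ofPred_eq, Set.mem_empty_iff_false, iff_false]
        rintro rfl
        exact hp (hprime v)
      rw [this, Set.ncard_empty]
      exact Nat.zero_le _
  let F : ℕ → Finset (HeightOneSpectrum (𝓞 K)) := fun p => (hfin p).toFinset
  have hF : ∀ p v, v ∈ F p ↔ π v = p := fun p v => by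
    show v ∈ (hfin p).toFinset ↔ _
    rw [Set.Finite.mem_toFinset]
    rfl
  have hFc : ∀ p, (F p).card ≤ n := fun p => by
    have := hcard p
    rwa [Set.ncard_eq_toFinset_card _ (hfin p)] at this
  let B : ℕ → ℝ := fun p => n * (p : ℝ) ^ (-2 : ℝ)
  have hB : Summable B := (Real.summable_nat_rpow.2 (by norm_num)).mul_left _
  refine Dn_zero_of_le (C := ∑' p, B p) fun x h0 h1 => ?_
  have key : ∀ p : ℕ, |(∑ v ∈ F p, Z.indicator (fun w => (nm w : ℝ) ^ (-(1 + x))) v) - 0| ≤ B p := by
    intro p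
    rw [sub_zero, abs_of_nonneg (Finset.sum_nonneg fun v _ => ind_nonneg Z x v)]
    have h2 : ∀ v ∈ F p, Z.indicator (fun w => (nm w : ℝ) ^ (-(1 + x))) v ≤ (p : ℝ) ^ (-2 : ℝ) := by
      intro v hv
      have hv' : π v = p := (hF p v).1 hv
      have hpp : p.Prime := by rw [← hv']; exact hprime v
      have hp1 : (1 : ℝ) ≤ p := by exact_mod_cast hpp.one_le
      by_cases hZ : v ∈ Z
      · rw [Set.indicator_of_mem hZ]
        obtain ⟨q, f, hq, hf, hnm, hl⟩ := nm_eq v
        have hqp : q = p := by rw [← hπ v q f hq hf hnm]; exact hv'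
        subst hqp
        have hf2 : 2 ≤ f := by
          rcases Nat.lt_or_ge 1 f with h | h
          · exact h
          · exfalso
            apply hZ
            have : f = 1 := by omega
            rw [hnm, this, pow_one]
            exact hq
        rw [hnm]
        push_cast
        rw [← Real.rpow_natCast, ← Real.rpow_mul (by linarith)]
        refine Real.rpow_le_rpow_of_exponent_le hp1 ?_
        have : (2 : ℝ) ≤ f := by exact_mod_cast hf2
        nlinarith
      · rw [Set.indicator_of_notMem hZ]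
        exact Real.rpow_nonneg (by linarith) _
    calc ∑ v ∈ F p, Z.indicator (fun w => (nm w : ℝ) ^ (-(1 + x))) v
        ≤ ∑ _v ∈ F p, (p : ℝ) ^ (-2 : ℝ) := Finset.sum_le_sum h2
      _ = (F p).card * (p : ℝ) ^ (-2 : ℝ) := by rw [Finset.sum_const, nsmul_eq_mul]
      _ ≤ n * (p : ℝ) ^ (-2 : ℝ) := mul_le_mul_of_nonneg_right (by exact_mod_cast hFc p)
        (Real.rpow_nonneg (Nat.cast_nonneg _) _)
  have hcmp := compare π F hF (Z.indicator fun w => (nm w : ℝ) ^ (-(1 + x)))
    (summable_ind Z h0) (fun _ => 0) B hB key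
  rw [tsum_zero, sub_zero] at hcmp
  exact (le_abs_self _).trans hcmp

/-- **Existence of primes.** `A` a set of density `a`, `B` a set of upper density `b < a`; there are
infinitely many primes of degree one (the norm is a prime number) in `A` and outside `B`. -/
theorem infinite_deg_one {A B : Set (HeightOneSpectrum (𝓞 K))} {a b : ℝ} (hA : Dn K A a)
    (hB : Up K B b) (hab : b < a) : {v | v ∈ A ∧ v ∉ B ∧ (nm v).Prime}.Infinite := by
  have h := infinite_diff hA (hB.union (Dn_deg K).up) (by linarith)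
  refine h.mono ?_
  rintro v ⟨h1, h2⟩
  refine ⟨h1, fun h => h2 (Or.inl h), ?_⟩
  by_contra h3
  exact h2 (Or.inr h3)

end Pool.Agent.ZD
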