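import Pool.Agent.Lib.ZD.AuxP

/-!
Frobenius elements and split primes.

* `exists_frob`: the Frobenius element in a Galois extension of number fields.
* `nm_under_eq_of_frob`: if the Frobenius acts trivially on an intermediate field, the residue
  degree there is one.
* `mem_Spl_of_nm`: unramified and of residue degree one means split completely.
-/

set_option autoImplicit false
set_option linter.unusedSectionVars false

open NumberField IsDedekindDomain

namespace Pool.Agent.ZD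

section

variable {L M : Type} [Field L] [NumberField L] [Field M] [NumberField M] [Algebra L M]

/-- the Frobenius element -/
theorem exists_frob [IsGalois L M] (w : HeightOneSpectrum (𝓞 M)) :
    ∃ φ : Gal(M/L), ∀ x : 𝓞 M, (φ • x : 𝓞 M) - x ^ nm (w.under (𝓞 L)) ∈ w.asIdeal := by
  have : w.asIdeal.IsMaximal := w.isMaximal
  have : Finite (𝓞 M ⧸ w.asIdeal) := inferInstance
  obtain ⟨φ, hφ⟩ := IsArithFrobAt.exists_of_isInvariant (𝓞 L) Gal(M/L) w.asIdeal
  exact ⟨φ, hφ⟩

theorem coe_smul (φ : Gal(M/L)) (x : 𝓞 M) : ((φ • x : 𝓞 M) : M) = φ (x : M) := rfl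

/-- The Frobenius on roots of unity. -/
theorem frob_root [IsGalois L M] {w : HeightOneSpectrum (𝓞 M)} {φ : Gal(M/L)}
    (hφ : ∀ x : 𝓞 M, (φ • x : 𝓞 M) - x ^ nm (w.under (𝓞 L)) ∈ w.asIdeal) {n : ℕ}
    (hn : (n : 𝓞 M) ∉ w.asIdeal) {ζ : M} (hζ : ζ ^ n = 1) :
    φ ζ = ζ ^ nm (w.under (𝓞 L)) := by
  have hn0 : n ≠ 0 := by
    rintro rfl
    exact hn (by simp)
  have hint : IsIntegral ℤ ζ := IsIntegral.of_pow (Nat.pos_of_ne_zero hn0) (by rw [hζ]; exact isIntegral_one)
  let z : 𝓞 M := ⟨ζ, hint⟩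
  have hz : z ^ n = 1 := by
    apply RingOfIntegers.ext
    show ζ ^ n = 1
    exact hζ
  have h : AlgHom.IsArithFrobAt (MulSemiringAction.toAlgHom (𝓞 L) (𝓞 M) φ) w.asIdeal := hφ
  have h2 := h.apply_of_pow_eq_one hz hn
  have h3 := congrArg (algebraMap (𝓞 M) M) h2
  rw [map_pow] at h3
  exact h3

end

section

variable {L F M : Type} [Field L] [NumberField L] [Field F] [NumberField F] [Field M]
  [NumberField M] [Algebra L F] [Algebra F M] [Algebra L M] [IsScalarTower L F M]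

theorem under_under (w : HeightOneSpectrum (𝓞 M)) :
    (w.under (𝓞 F)).under (𝓞 L) = w.under (𝓞 L) := by
  apply HeightOneSpectrum.ext
  show (w.asIdeal.comap (algebraMap (𝓞 F) (𝓞 M))).comap (algebraMap (𝓞 L) (𝓞 F)) =
    w.asIdeal.comap (algebraMap (𝓞 L) (𝓞 M))
  rw [Ideal.comap_comap, ← IsScalarTower.algebraMap_eq]

theorem card_le_of_pow {k : Type} [CommRing k] [IsDomain k] [Finite k] {N : ℕ} (hN : 1 < N)
    (h : ∀ x : k, x ^ N = x) : Nat.card k ≤ N := by
  classical
  have := Fintype.ofFinite k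
  let P : Polynomial k := Polynomial.X ^ N - Polynomial.X
  have hdeg : P.natDegree = N := by
    rw [Polynomial.natDegree_sub_eq_left_of_natDegree_lt]
    · exact Polynomial.natDegree_X_pow N
    · rw [Polynomial.natDegree_X, Polynomial.natDegree_X_pow]
      exact hN
  have hP : P ≠ 0 := by
    intro h0
    rw [h0, Polynomial.natDegree_zero] at hdeg
    omega
  have h1 : (Finset.univ : Finset k) ⊆ P.roots.toFinset := by
    intro x _
    rw [Multiset.mem_toFinset, Polynomial.mem_roots hP]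
    show Polynomial.eval _ P = 0
    simp only [P, Polynomial.eval_sub, Polynomial.eval_pow, Polynomial.eval_X]
    rw [h x, sub_self]
  have h2 := (Finset.card_le_card h1).trans (Multiset.toFinset_card_le _)
  rw [Nat.card_eq_fintype_card]
  exact (h2.trans (Polynomial.card_roots' P)).trans hdeg.le

/-- If all elements satisfy `x^N = x` modulo `u` then `nm u ≤ N`. -/
theorem nm_le_of_pow (u : HeightOneSpectrum (𝓞 F)) {N : ℕ} (hN : 1 < N)
    (h : ∀ x : 𝓞 F, x ^ N - x ∈ u.asIdeal) : nm u ≤ N := by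
  have hmax : u.asIdeal.IsMaximal := u.isMaximal
  have hfin : Finite (𝓞 F ⧸ u.asIdeal) := inferInstance
  have hdom : IsDomain (𝓞 F ⧸ u.asIdeal) := Ideal.Quotient.isDomain _
  have h3 : nm u = Nat.card (𝓞 F ⧸ u.asIdeal) := rfl
  rw [h3]
  refine card_le_of_pow hN fun x => ?_
  obtain ⟨y, rfl⟩ := Ideal.Quotient.mk_surjective x
  rw [← map_pow]
  exact (Ideal.Quotient.mk_eq_mk_iff_sub_mem _ _).2 (h y)

/-- If the Frobenius over `L` is trivial on `F`, the residue degree over `L` in `F` is one. -/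
theorem nm_under_eq_of_frob {w : HeightOneSpectrum (𝓞 M)} {φ : Gal(M/L)}
    (hφ : ∀ x : 𝓞 M, (φ • x : 𝓞 M) - x ^ nm (w.under (𝓞 L)) ∈ w.asIdeal)
    (ht : ∀ x : F, φ (algebraMap F M x) = algebraMap F M x) :
    nm (w.under (𝓞 F)) ≤ nm (w.under (𝓞 L)) := by
  refine nm_le_of_pow _ (by have := two_le_nm (w.under (𝓞 L)); omega) fun x => ?_
  have h1 := hφ (algebraMap (𝓞 F) (𝓞 M) x)
  have h2 : (φ • (algebraMap (𝓞 F) (𝓞 M) x) : 𝓞 M) = algebraMap (𝓞 F) (𝓞 M) x := by
    apply RingOfIntegers.ext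
    exact ht (x : F)
  rw [h2, ← map_pow, ← map_sub] at h1
  show algebraMap (𝓞 F) (𝓞 M) _ ∈ w.asIdeal
  have h3 := w.asIdeal.neg_mem h1
  rwa [← map_neg, neg_sub] at h3

end

section

variable {L F : Type} [Field L] [NumberField L] [Field F] [NumberField F] [Algebra L F]

/-- the ramified primes -/
theorem mem_Spl_of_nm [IsGalois L F] {v : HeightOneSpectrum (𝓞 L)}
    (hr : v ∉ {v : HeightOneSpectrum (𝓞 L) | ∃ w ∈ abv F v,
      w.asIdeal ∣ differentIdeal (𝓞 L) (𝓞 F)}) {u : HeightOneSpectrum (𝓞 F)}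
    (hu : u ∈ abv F v) (h : nm u ≤ nm v) : v ∈ Spl L F := by
  obtain ⟨e, f, he, hf, h1, h2, h3⟩ := local_data (L := F) v
  have he1 : e = 1 := by
    by_contra he1
    exact hr ⟨u, hu, h3 he1 u hu⟩
  have hf1 : f = 1 := by
    by_contra hf1
    have hf2 : 2 ≤ f := by omega
    have h4 := h2 u hu
    have h5 := two_le_nm v
    have h6 : nm v ^ 2 ≤ nm v ^ f := Nat.pow_le_pow_right (by omega) hf2
    have h7 : nm v * 2 ≤ nm v ^ 2 := by
      rw [pow_two]
      exact Nat.mul_le_mul_left _ h5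
    omega
  rw [he1, hf1, mul_one, mul_one] at h1
  exact h1

theorem nm_eq_of_mem_Spl {v : HeightOneSpectrum (𝓞 L)} (hv : v ∈ Spl L F)
    {u : HeightOneSpectrum (𝓞 F)} (hu : u ∈ abv F v) : nm u = nm v :=
  (sum_formula v).2 hv u hu

end

end Pool.Agent.ZD
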