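import Pool.Agent.Lib.ZD.Frob

/-!
Densities of the primes with norm in a given subgroup of `(ℤ/n)ˣ`.

* `Dn.sdiff`
* `Dn_cyc`: if the `n`-th cyclotomic polynomial is irreducible over `L` and `S` is a subgroup of
  `(ℤ/n)ˣ` then the primes of `L` with norm in `S` modulo `n` have density `1/[(ℤ/n)ˣ : S]`.
* `infinite_primitive_root`: infinitely many primes `v` of `L` with `nm v` a prime which is a
  primitive root modulo the prime `q`.
-/

set_option autoImplicit false
set_option linter.unusedSectionVars false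

open NumberField IsDedekindDomain

namespace Pool.Agent.ZD

section

variable {K : Type} [Field K] [NumberField K]

theorem Dn.sdiff {A B : Set (HeightOneSpectrum (𝓞 K))} {d e : ℝ} (hA : Dn K A d) (hB : Dn K B e)
    (hAB : B ⊆ A) : Dn K (A \ B) (d - e) := by
  obtain ⟨C, hC⟩ := hA
  obtain ⟨C', hC'⟩ := hB
  refine ⟨C + C', fun x h0 h1 => ?_⟩
  have e1 : pS K A x = pS K (A \ B) x + pS K B x := by
    unfold pS
    rw [← (summable_ind _ h0).tsum_add (summable_ind _ h0)]
    congr 1
    funext v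
    by_cases hvB : v ∈ B
    · have hvA := hAB hvB
      rw [Set.indicator_of_mem hvA, Set.indicator_of_mem hvB,
        Set.indicator_of_notMem (fun h : v ∈ A \ B => h.2 hvB), zero_add]
    · by_cases hvA : v ∈ A
      · have h : v ∈ A \ B := ⟨hvA, hvB⟩
        rw [Set.indicator_of_mem hvA, Set.indicator_of_notMem hvB, Set.indicator_of_mem h,
          add_zero]
      · rw [Set.indicator_of_notMem hvA, Set.indicator_of_notMem hvB,
          Set.indicator_of_notMem (fun h : v ∈ A \ B => hvA h.1), add_zero]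
  have h2 := hC x h0 h1
  have h3 := hC' x h0 h1
  rw [abs_le] at h2 h3 ⊢
  constructor <;> nlinarith [h2.1, h2.2, h3.1, h3.2]

end

section

variable {L : Type} [Field L] [NumberField L]

/-- primes with norm in the set `S` modulo `n` -/
def NS (L : Type) [Field L] [NumberField L] (n : ℕ) (S : Set (ZMod n)ˣ) :
    Set (HeightOneSpectrum (𝓞 L)) :=
  {v | ∃ u ∈ S, ((u : (ZMod n)ˣ) : ZMod n) = (nm v : ZMod n)}

theorem finite_dvd_n (n : ℕ) (hn : n ≠ 0) :
    {v : HeightOneSpectrum (𝓞 L) | (n : 𝓞 L) ∈ v.asIdeal}.Finite :=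
  finite_mem (n : 𝓞 L) (by exact_mod_cast hn)

theorem Dn_cyc (n : ℕ) [NeZero n] (hirr : Irreducible (Polynomial.cyclotomic n L))
    (S : Subgroup (ZMod n)ˣ) : Dn L (NS L n (S : Set (ZMod n)ˣ)) (1 / S.index) := by
  classical
  let M := CyclotomicField n L
  have hgal : IsGalois L M := IsCyclotomicExtension.isGalois {n} L M
  have hNM : NumberField M := inferInstance
  let ζ : M := IsCyclotomicExtension.zeta n L M
  have hζ : IsPrimitiveRoot ζ n := IsCyclotomicExtension.zeta_spec n L M
  let χ : Gal(M/L) →* (ZMod n)ˣ := hζ.autToPow L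
  have hχ : ∀ φ : Gal(M/L), ζ ^ ((χ φ : ZMod n)).val = φ ζ := fun φ => hζ.autToPow_spec L φ
  have hinj : Function.Injective χ := hζ.autToPow_injective L
  have hsurj : Function.Surjective χ := (IsCyclotomicExtension.autEquivPow M hirr).surjective
  let H : Subgroup Gal(M/L) := S.comap χ
  let F : IntermediateField L M := IntermediateField.fixedField H
  have hFG : IsGalois L F := IsGalois.of_fixedField_normal_subgroup H
  have hNF : NumberField F := inferInstance
  have hidx : Module.finrank L F = S.index := by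
    have h1 := Module.finrank_mul_finrank L F M
    have h2 : Module.finrank F M = Nat.card H := IntermediateField.finrank_fixedField_eq_card H
    have h3 : Module.finrank L M = Nat.card Gal(M/L) := (IsGalois.card_aut_eq_finrank L M).symm
    have h4 := H.card_mul_index
    have h5 : H.index = S.index := Subgroup.index_comap_of_surjective S hsurj
    rw [h2, h3, ← h4, mul_comm] at h1
    rw [← h5]
    exact Nat.eq_of_mul_eq_mul_left Nat.card_pos h1
  have hD := Dn_Spl L F
  rw [hidx] at hD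
  -- the exceptional set
  let R : Set (HeightOneSpectrum (𝓞 L)) := {v | ∃ w ∈ abv F v,
      w.asIdeal ∣ differentIdeal (𝓞 L) (𝓞 F)}
  let Z : Set (HeightOneSpectrum (𝓞 L)) := {v | (n : 𝓞 L) ∈ v.asIdeal}
  have hRf : (R ∪ Z).Finite := finite_ram.union (finite_dvd_n n (NeZero.ne n))
  -- the values of roots of unity
  have hval : ∀ (N : ℕ) (u : (ZMod n)ˣ), ζ ^ ((u : ZMod n)).val = ζ ^ N → (u : ZMod n) = N := by
    intro N u h
    rw [pow_eq_pow_mod N hζ.pow_eq_one] at h
    have h1 := hζ.pow_inj (ZMod.val_lt _) (Nat.mod_lt _ (NeZero.pos n)) h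
    have h2 : (((u : ZMod n).val : ℕ) : ZMod n) = ((N % n : ℕ) : ZMod n) := by rw [h1]
    rwa [ZMod.natCast_val, ZMod.cast_id, ZMod.natCast_mod] at h2
  refine hD.congr (Dn_finite hRf) ?_ ?_
  · intro v hv
    by_cases hvZ : v ∈ Z
    · exact Or.inr (Or.inr hvZ)
    left
    obtain ⟨w, hw⟩ := abv_nonempty (L := M) v
    have hwv : w.under (𝓞 L) = v := hw
    obtain ⟨φ, hφ⟩ := exists_frob (L := F) w
    have hu : w.under (𝓞 F) ∈ abv F v := by
      show (w.under (𝓞 F)).under (𝓞 L) = v
      rw [under_under, hwv]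
    have hnm : nm (w.under (𝓞 F)) = nm v := nm_eq_of_mem_Spl hv hu
    have hnw : (n : 𝓞 M) ∉ w.asIdeal := by
      intro h
      apply hvZ
      show (n : 𝓞 L) ∈ v.asIdeal
      rw [← hwv]
      show algebraMap (𝓞 L) (𝓞 M) (n : 𝓞 L) ∈ w.asIdeal
      rw [map_natCast]
      exact h
    have h1 := frob_root hφ hnw hζ.pow_eq_one
    rw [hnm] at h1
    -- as an automorphism over `L`
    let ψ : Gal(M/L) := φ.restrictScalars L
    have hψH : ψ ∈ H := by
      have h2 : H = F.fixingSubgroup := (IntermediateField.fixingSubgroup_fixedField H).symm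
      rw [h2]
      rw [IntermediateField.mem_fixingSubgroup_iff]
      intro x hx
      exact φ.commutes (⟨x, hx⟩ : F)
    have hψ : ψ ζ = ζ ^ nm v := h1
    refine ⟨χ ψ, hψH, ?_⟩
    exact hval _ _ ((hχ ψ).trans hψ)
  · rintro v ⟨u, hu, huv⟩
    by_cases hvZ : v ∈ Z
    · exact Or.inr (Or.inr hvZ)
    by_cases hvR : v ∈ R
    · exact Or.inr (Or.inl hvR)
    left
    obtain ⟨w, hw⟩ := abv_nonempty (L := M) v
    have hwv : w.under (𝓞 L) = v := hw
    obtain ⟨φ, hφ⟩ := exists_frob (L := L) w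
    have hnw : (n : 𝓞 M) ∉ w.asIdeal := by
      intro h
      apply hvZ
      show (n : 𝓞 L) ∈ v.asIdeal
      rw [← hwv]
      show algebraMap (𝓞 L) (𝓞 M) (n : 𝓞 L) ∈ w.asIdeal
      rw [map_natCast]
      exact h
    have h1 := frob_root hφ hnw hζ.pow_eq_one
    rw [hwv] at h1
    have h2 : (χ φ : ZMod n) = nm v := hval _ _ ((hχ φ).trans h1)
    have h3 : χ φ = u := Units.ext (h2.trans huv.symm)
    have hφH : φ ∈ H := by
      show χ φ ∈ S
      rw [h3]
      exact hu
    have hu : w.under (𝓞 F) ∈ abv F v := by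
      show (w.under (𝓞 F)).under (𝓞 L) = v
      rw [under_under, hwv]
    refine mem_Spl_of_nm hvR hu ?_
    have h4 := nm_under_eq_of_frob (F := F) hφ fun x => x.2 ⟨φ, hφH⟩
    rwa [hwv] at h4

theorem NS_sdiff (n : ℕ) (A B : Set (ZMod n)ˣ) : NS L n A \ NS L n B = NS L n (A \ B) := by
  ext v
  constructor
  · rintro ⟨⟨u, hu, huv⟩, h2⟩
    exact ⟨u, ⟨hu, fun h => h2 ⟨u, h, huv⟩⟩, huv⟩
  · rintro ⟨u, ⟨hu, hu2⟩, huv⟩
    refine ⟨⟨u, hu, huv⟩, ?_⟩
    rintro ⟨u', hu', huv'⟩
    have h : u' = u := Units.ext (huv'.trans huv.symm)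
    rw [h] at hu'
    exact hu2 hu'

theorem NS_mono (n : ℕ) {A B : Set (ZMod n)ˣ} (h : A ⊆ B) : NS L n A ⊆ NS L n B := by
  rintro v ⟨u, hu, huv⟩
  exact ⟨u, h hu, huv⟩

/-- `m`-th powers which are not `r`-th powers, `r ∈ T` -/
def GS (q m : ℕ) (T : Finset ℕ) : Set (ZMod q)ˣ :=
  {u | u ^ ((q - 1) / m) = 1 ∧ ∀ r ∈ T, u ^ ((q - 1) / r) ≠ 1}

theorem Dn_GS (q : ℕ) [hq : Fact q.Prime] (hirr : Irreducible (Polynomial.cyclotomic q L))
    (T : Finset ℕ) : ∀ m : ℕ, (∀ r ∈ T, r.Prime) → (∀ r ∈ T, r ∣ q - 1) → m ∣ q - 1 →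
      (∀ r ∈ T, r.Coprime m) →
      Dn L (NS L q (GS q m T)) ((1 / (m : ℝ)) * ∏ r ∈ T, (1 - 1 / (r : ℝ))) := by
  classical
  have hq1 : 0 < q - 1 := by have := hq.out.two_le; omega
  induction T using Finset.induction_on with
  | empty =>
    intro m _ _ hm _
    have hm0 : 0 < m := Nat.pos_of_dvd_of_pos hm hq1
    let S : Subgroup (ZMod q)ˣ := (powMonoidHom ((q - 1) / m)).ker
    have h1 := Dn_cyc q hirr S
    have h2 : (S : Set (ZMod q)ˣ) = GS q m ∅ := by
      ext u
      constructor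
      · intro h
        exact ⟨h, fun r hr => absurd hr (Finset.notMem_empty r)⟩
      · intro h
        exact h.1
    have hcard : Nat.card (ZMod q)ˣ = q - 1 := by
      rw [Nat.card_eq_fintype_card, ZMod.card_units]
    have h3 : S.index = m := by
      have h4 := IsCyclic.index_powMonoidHom_ker (ZMod q)ˣ ((q - 1) / m)
      rw [hcard, Nat.gcd_eq_right (Nat.div_dvd_of_dvd hm), Nat.div_div_self hm hq1.ne'] at h4
      exact h4
    rw [h2, h3] at h1
    rw [Finset.prod_empty, mul_one]
    exact h1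
  | insert r T hr ih =>
    intro m hT1 hT2 hm hT3
    have hrp := hT1 r (Finset.mem_insert_self _ _)
    have hrq := hT2 r (Finset.mem_insert_self _ _)
    have hrm := hT3 r (Finset.mem_insert_self _ _)
    have hmr : m * r ∣ q - 1 := Nat.Coprime.mul_dvd_of_dvd_of_dvd hrm.symm hm hrq
    have h1 := ih m (fun s hs => hT1 s (Finset.mem_insert_of_mem hs))
      (fun s hs => hT2 s (Finset.mem_insert_of_mem hs)) hm
      (fun s hs => hT3 s (Finset.mem_insert_of_mem hs))
    have h2 := ih (m * r) (fun s hs => hT1 s (Finset.mem_insert_of_mem hs))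
      (fun s hs => hT2 s (Finset.mem_insert_of_mem hs)) hmr
      (fun s hs => Nat.Coprime.mul_right (hT3 s (Finset.mem_insert_of_mem hs))
        ((Nat.coprime_primes (hT1 s (Finset.mem_insert_of_mem hs)) hrp).2
          (fun h => hr (h ▸ hs))))
    obtain ⟨c, hc⟩ := hmr
    have hr0 : 0 < r := hrp.pos
    have hm0 : 0 < m := Nat.pos_of_dvd_of_pos hm hq1
    have e1 : (q - 1) / m = r * c := by
      rw [hc, mul_assoc, Nat.mul_div_cancel_left _ hm0]
    have e2 : (q - 1) / r = m * c := by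
      rw [hc, mul_comm m r, mul_assoc, Nat.mul_div_cancel_left _ hr0]
    have e3 : (q - 1) / (m * r) = c := by
      rw [hc, Nat.mul_div_cancel_left _ (Nat.mul_pos hm0 hr0)]
    have hsub : GS q (m * r) T ⊆ GS q m T := by
      rintro u ⟨hu1, hu2⟩
      refine ⟨?_, hu2⟩
      rw [e3] at hu1
      rw [e1, mul_comm, pow_mul, hu1, one_pow]
    have hdiff : GS q m T \ GS q (m * r) T = GS q m (insert r T) := by
      ext u
      constructor
      · rintro ⟨⟨hu1, hu2⟩, hu3⟩
        refine ⟨hu1, fun s hs => ?_⟩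
        rcases Finset.mem_insert.1 hs with rfl | hs
        · intro h
          apply hu3
          refine ⟨?_, hu2⟩
          rw [e3]
          rw [e1] at hu1
          rw [e2] at h
          have h5 : orderOf u ∣ s * c := orderOf_dvd_of_pow_eq_one hu1
          have h6 : orderOf u ∣ m * c := orderOf_dvd_of_pow_eq_one h
          have h7 : orderOf u ∣ c := by
            have h8 := Nat.dvd_gcd h5 h6
            rwa [Nat.gcd_mul_right, hrm.gcd_eq_one, one_mul] at h8
          exact orderOf_dvd_iff_pow_eq_one.1 h7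
        · exact hu2 s hs
      · rintro ⟨hu1, hu2⟩
        refine ⟨⟨hu1, fun s hs => hu2 s (Finset.mem_insert_of_mem hs)⟩, ?_⟩
        rintro ⟨hu3, _⟩
        apply hu2 r (Finset.mem_insert_self _ _)
        rw [e3] at hu3
        rw [e2, mul_comm, pow_mul, hu3, one_pow]
    have h3 := h1.sdiff h2 (NS_mono q hsub)
    rw [NS_sdiff, hdiff] at h3
    convert h3 using 1
    rw [Finset.prod_insert hr]
    have hr' : (r : ℝ) ≠ 0 := by exact_mod_cast hr0.ne'
    have hm' : (m : ℝ) ≠ 0 := by exact_mod_cast hm0.ne'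
    push_cast
    field_simp

/-- **Primitive roots.** There are infinitely many primes of `L` whose norm is a prime number
which is a primitive root modulo `q`. -/
theorem infinite_primitive_root (q : ℕ) [hq : Fact q.Prime]
    (hirr : Irreducible (Polynomial.cyclotomic q L)) :
    {v : HeightOneSpectrum (𝓞 L) | (nm v).Prime ∧ orderOf (nm v : ZMod q) = q - 1}.Infinite := by
  classical
  have hq1 : 0 < q - 1 := by have := hq.out.two_le; omega
  have h1 := Dn_GS (L := L) q hirr (q - 1).primeFactors 1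
    (fun r hr => Nat.prime_of_mem_primeFactors hr) (fun r hr => Nat.dvd_of_mem_primeFactors hr)
    (one_dvd _) (fun r _ => Nat.coprime_one_right r)
  have hpos : (0 : ℝ) < (1 / ((1 : ℕ) : ℝ)) * ∏ r ∈ (q - 1).primeFactors, (1 - 1 / (r : ℝ)) := by
    refine mul_pos (by norm_num) (Finset.prod_pos fun r hr => ?_)
    have h2 : 1 < r := (Nat.prime_of_mem_primeFactors hr).one_lt
    have h3 : (1 : ℝ) < r := by exact_mod_cast h2
    rw [sub_pos, div_lt_one (by linarith)]
    exact h3
  have h2 := infinite_deg_one h1 (Dn_finite (Set.finite_empty)).up hpos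
  refine h2.mono ?_
  rintro v ⟨⟨u, hu, huv⟩, _, hv⟩
  refine ⟨hv, ?_⟩
  rw [← huv, orderOf_units]
  refine orderOf_eq_of_pow_and_pow_div_prime hq1 ?_ fun r hr hrq => ?_
  · have h3 := hu.1
    rwa [Nat.div_one] at h3
  · exact hu.2 r (Nat.mem_primeFactors.2 ⟨hr, hrq, hq1.ne'⟩)

end

end Pool.Agent.ZD
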