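import Pool.Agent.Lib.MP_7ed9c3_nt.Tw.D6a
import Pool.Agent.Lib.MP_7ed9c3_nt.Tw.D7

/-!
# Densities of sets of primes of a number field: definitions and elementary facts
-/

set_option autoImplicit false

namespace Pool.Agent.ZD

open NumberField IsDedekindDomain Filter Topology

/-- the norm of a prime -/
noncomputable def nm {K : Type} [Field K] [NumberField K] (v : HeightOneSpectrum (𝓞 K)) : ℕ :=
  Ideal.absNorm v.asIdeal

/-- `∑_{v ∈ A} N(v)^(-(1+x))` -/
noncomputable def pS (K : Type) [Field K] [NumberField K] (A : Set (HeightOneSpectrum (𝓞 K)))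
    (x : ℝ) : ℝ :=
  ∑' v : HeightOneSpectrum (𝓞 K), A.indicator (fun w => (nm w : ℝ) ^ (-(1 + x))) v

/-- The set `A` has density `d` (in a strong sense). -/
def Dn (K : Type) [Field K] [NumberField K] (A : Set (HeightOneSpectrum (𝓞 K))) (d : ℝ) : Prop :=
  ∃ C : ℝ, ∀ x : ℝ, 0 < x → x ≤ 1 → |pS K A x - d * Real.log (1 / x)| ≤ C

variable {K : Type} [Field K] [NumberField K]

theorem two_le_nm (v : HeightOneSpectrum (𝓞 K)) : 2 ≤ nm v := MP7ed9c3.Tw.D7.two_le_nat v

theorem nm_pos (v : HeightOneSpectrum (𝓞 K)) : 0 < nm v := by have := two_le_nm v; omega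

theorem term_nonneg (v : HeightOneSpectrum (𝓞 K)) (x : ℝ) : 0 ≤ (nm v : ℝ) ^ (-(1 + x)) :=
  Real.rpow_nonneg (Nat.cast_nonneg _) _

theorem term_le_inv (v : HeightOneSpectrum (𝓞 K)) {x : ℝ} (hx : 0 ≤ x) :
    (nm v : ℝ) ^ (-(1 + x)) ≤ (nm v : ℝ)⁻¹ := by
  rw [← Real.rpow_neg_one]
  exact Real.rpow_le_rpow_of_exponent_le (by exact_mod_cast nm_pos v) (by linarith)

theorem term_le_one (v : HeightOneSpectrum (𝓞 K)) {x : ℝ} (hx : 0 ≤ x) :
    (nm v : ℝ) ^ (-(1 + x)) ≤ 1 := by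
  refine (term_le_inv v hx).trans ?_
  exact inv_le_one_of_one_le₀ (by exact_mod_cast nm_pos v)

theorem summable_all {x : ℝ} (hx : 0 < x) :
    Summable fun v : HeightOneSpectrum (𝓞 K) => (nm v : ℝ) ^ (-(1 + x)) :=
  (MP7ed9c3.Tw.zetaSum K).2.1 (1 + x) (by linarith)

theorem summable_two :
    Summable fun v : HeightOneSpectrum (𝓞 K) => (nm v : ℝ) ^ (-2 : ℝ) :=
  (MP7ed9c3.Tw.zetaSum K).2.1 2 (by norm_num)

theorem summable_ind (A : Set (HeightOneSpectrum (𝓞 K))) {x : ℝ} (hx : 0 < x) :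
    Summable fun v : HeightOneSpectrum (𝓞 K) =>
      A.indicator (fun w => (nm w : ℝ) ^ (-(1 + x))) v :=
  (summable_all hx).indicator A

theorem ind_nonneg (A : Set (HeightOneSpectrum (𝓞 K))) (x : ℝ) (v : HeightOneSpectrum (𝓞 K)) :
    0 ≤ A.indicator (fun w => (nm w : ℝ) ^ (-(1 + x))) v :=
  Set.indicator_nonneg (fun w _ => term_nonneg w x) v

theorem pS_nonneg (A : Set (HeightOneSpectrum (𝓞 K))) (x : ℝ) : 0 ≤ pS K A x :=
  tsum_nonneg fun v => ind_nonneg A x v

theorem pS_mono {A B : Set (HeightOneSpectrum (𝓞 K))} (h : A ⊆ B) {x : ℝ} (hx : 0 < x) :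
    pS K A x ≤ pS K B x := by
  refine (summable_ind A hx).tsum_le_tsum (fun v => ?_) (summable_ind B hx)
  exact Set.indicator_le_indicator_of_subset h (fun w => term_nonneg w x) v

theorem pS_union_le (A B : Set (HeightOneSpectrum (𝓞 K))) {x : ℝ} (hx : 0 < x) :
    pS K (A ∪ B) x ≤ pS K A x + pS K B x := by
  unfold pS
  rw [← (summable_ind A hx).tsum_add (summable_ind B hx)]
  refine (summable_ind _ hx).tsum_le_tsum (fun v => ?_)
    ((summable_ind A hx).add (summable_ind B hx))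
  have h1 := ind_nonneg A x v
  have h2 := ind_nonneg B x v
  by_cases hA : v ∈ A
  · rw [Set.indicator_of_mem (Set.mem_union_left _ hA), Set.indicator_of_mem hA]
    linarith
  · by_cases hB : v ∈ B
    · rw [Set.indicator_of_mem (Set.mem_union_right _ hB), Set.indicator_of_mem hB]
      linarith
    · rw [Set.indicator_of_notMem (by simp [hA, hB])]
      linarith

theorem pS_finite {F : Set (HeightOneSpectrum (𝓞 K))} (hF : F.Finite) {x : ℝ} (hx : 0 < x) :
    pS K F x ≤ F.ncard := by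
  classical
  unfold pS
  have h1 : ∑' v : HeightOneSpectrum (𝓞 K), F.indicator (fun w => (nm w : ℝ) ^ (-(1 + x))) v =
      ∑ v ∈ hF.toFinset, F.indicator (fun w => (nm w : ℝ) ^ (-(1 + x))) v := by
    refine tsum_eq_sum fun v hv => ?_
    rw [Set.indicator_of_notMem]
    intro h
    exact hv (hF.mem_toFinset.2 h)
  rw [h1, Set.ncard_eq_toFinset_card F hF]
  calc ∑ v ∈ hF.toFinset, F.indicator (fun w => (nm w : ℝ) ^ (-(1 + x))) v
      ≤ ∑ _v ∈ hF.toFinset, (1 : ℝ) := Finset.sum_le_sum fun v hv => by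
        rw [Set.indicator_of_mem (hF.mem_toFinset.1 hv)]
        exact term_le_one v hx.le
    _ = (hF.toFinset.card : ℝ) := by simp

/-- the sum over all primes -/
theorem Dn_univ : Dn K Set.univ 1 := by
  have h6 := MP7ed9c3.Tw.zetaSum
  -- near zero
  have h3 : Tendsto (fun x : ℝ => 1 + x) (𝓝[>] 0) (𝓝[>] 1) := by
    rw [tendsto_nhdsWithin_iff]
    constructor
    · have h5 : Tendsto (fun x : ℝ => 1 + x) (𝓝 0) (𝓝 (1 + 0)) := by
        apply Continuous.tendsto
        fun_prop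
      rw [add_zero] at h5
      exact h5.mono_left nhdsWithin_le_nhds
    · filter_upwards [self_mem_nhdsWithin] with y hy
      have : (0 : ℝ) < y := hy
      show (1 : ℝ) < 1 + y
      linarith
  have h4 := ((tendsto_sub_one_mul_dedekindZeta_nhdsGT K).comp h3).norm
  have hr := dedekindZeta_residue_pos K
  have h5 : Tendsto (fun x : ℝ => Real.log ‖(x : ℂ) * dedekindZeta K (1 + x + (0 : ℝ) * Complex.I)‖)
      (𝓝[>] 0) (𝓝 (Real.log ‖(dedekindZeta_residue K : ℂ)‖)) := by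
    refine Tendsto.log (h4.congr' ?_) ?_
    · filter_upwards [self_mem_nhdsWithin] with y hy
      simp
    · rw [norm_ne_zero_iff]
      exact_mod_cast hr.ne'
  have h7 : ∀ᶠ x : ℝ in 𝓝[>] 0, |Real.log ‖(x : ℂ) * dedekindZeta K (1 + x + (0 : ℝ) * Complex.I)‖| ≤
      |Real.log ‖(dedekindZeta_residue K : ℂ)‖| + 1 := by
    have := h5.abs.eventually_le_const (u := |Real.log ‖(dedekindZeta_residue K : ℂ)‖| + 1)
      (by linarith)
    exact this
  obtain ⟨δ, hδ0, hδ⟩ : ∃ δ : ℝ, 0 < δ ∧ ∀ x : ℝ, 0 < x → x < δ →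
      |Real.log ‖(x : ℂ) * dedekindZeta K (1 + x + (0 : ℝ) * Complex.I)‖| ≤
      |Real.log ‖(dedekindZeta_residue K : ℂ)‖| + 1 := by
    obtain ⟨u, hu, hu2⟩ := mem_nhdsGT_iff_exists_Ioo_subset.1 h7
    exact ⟨u, hu, fun x h1 h2 => hu2 ⟨h1, h2⟩⟩
  have hps : ∀ x : ℝ, pS K Set.univ x = MP7ed9c3.Tw.primeSum K x 0 := by
    intro x
    unfold pS MP7ed9c3.Tw.primeSum
    refine tsum_congr fun v => ?_
    rw [Set.indicator_univ, zero_mul, Real.cos_zero, mul_one]
    rfl
  set C0 := ∑' p : HeightOneSpectrum (𝓞 K), (MP7ed9c3.Tw.D7.nm p : ℝ) ^ (-2 : ℝ) with hC0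
  have hC0' : 0 ≤ C0 := tsum_nonneg fun p => Real.rpow_nonneg (Nat.cast_nonneg _) _
  refine ⟨(C0 + |Real.log ‖(dedekindZeta_residue K : ℂ)‖| + 1) +
    (pS K Set.univ δ + |Real.log δ|), fun x hx0 hx1 => ?_⟩
  have hA0 := pS_nonneg (K := K) Set.univ δ
  have hL0 := abs_nonneg (Real.log δ)
  have hB0 := abs_nonneg (Real.log ‖(dedekindZeta_residue K : ℂ)‖)
  rw [one_mul]
  rcases lt_or_ge x δ with hxd | hxd
  · have e1 := MP7ed9c3.Tw.D7.approx (K := K) h6 x 0 hx0
    have e2 := hδ x hx0 hxd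
    rw [norm_mul, Real.log_mul (by simpa using hx0.ne') (norm_ne_zero_iff.2
      (MP7ed9c3.Tw.D7.zeta_ne_zero h6 _ (MP7ed9c3.Tw.D7.re_gt x 0 hx0)))] at e2
    have e3 : ‖(x : ℂ)‖ = x := by simp [hx0.le]
    rw [e3] at e2
    rw [hps, one_div, Real.log_inv]
    rw [abs_le] at e1 e2 ⊢
    constructor <;> linarith [e1.1, e1.2, e2.1, e2.2]
  · have e1 : pS K Set.univ x ≤ pS K Set.univ δ := by
      refine (summable_ind _ hx0).tsum_le_tsum (fun v => ?_) (summable_ind _ hδ0)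
      rw [Set.indicator_univ, Set.indicator_univ]
      exact Real.rpow_le_rpow_of_exponent_le
        (show (1 : ℝ) ≤ nm v by exact_mod_cast nm_pos v) (by linarith)
    have e2 := pS_nonneg (K := K) Set.univ x
    have e3 : 0 ≤ Real.log (1 / x) := Real.log_nonneg (by
      rw [le_div_iff₀ hx0]; linarith)
    have e4 : Real.log (1 / x) ≤ |Real.log δ| := by
      rw [one_div, Real.log_inv]
      have := Real.log_le_log hδ0 hxd
      have h9 := neg_abs_le (Real.log δ)
      linarith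
    rw [abs_le]
    constructor <;> linarith

theorem Dn.add {A B : Set (HeightOneSpectrum (𝓞 K))} {d e : ℝ} (hA : Dn K A d) (hB : Dn K B e)
    (hAB : Disjoint A B) : Dn K (A ∪ B) (d + e) := by
  obtain ⟨C, hC⟩ := hA
  obtain ⟨C', hC'⟩ := hB
  refine ⟨C + C', fun x h0 h1 => ?_⟩
  have e1 : pS K (A ∪ B) x = pS K A x + pS K B x := by
    unfold pS
    rw [← (summable_ind A h0).tsum_add (summable_ind B h0)]
    refine tsum_congr fun v => ?_
    rw [Set.indicator_union_of_disjoint hAB]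
  rw [e1]
  have h2 := hC x h0 h1
  have h3 := hC' x h0 h1
  rw [abs_le] at h2 h3 ⊢
  constructor <;> nlinarith [h2.1, h2.2, h3.1, h3.2]

/-- sets with a bounded sum have density zero -/
theorem Dn_zero_of_le {A : Set (HeightOneSpectrum (𝓞 K))} {C : ℝ}
    (h : ∀ x : ℝ, 0 < x → x ≤ 1 → pS K A x ≤ C) : Dn K A 0 := by
  refine ⟨C, fun x h0 h1 => ?_⟩
  rw [zero_mul, sub_zero, abs_of_nonneg (pS_nonneg A x)]
  exact h x h0 h1

theorem Dn_finite {F : Set (HeightOneSpectrum (𝓞 K))} (hF : F.Finite) : Dn K F 0 :=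
  Dn_zero_of_le fun _ h0 _ => pS_finite hF h0

theorem Dn_subset {A B : Set (HeightOneSpectrum (𝓞 K))} (h : A ⊆ B) (hB : Dn K B 0) :
    Dn K A 0 := by
  obtain ⟨C, hC⟩ := hB
  refine Dn_zero_of_le (C := C) fun x h0 h1 => (pS_mono h h0).trans ?_
  have := hC x h0 h1
  rw [zero_mul, sub_zero] at this
  exact (le_abs_self _).trans this

theorem Dn.union_zero {A B : Set (HeightOneSpectrum (𝓞 K))} {d : ℝ} (hA : Dn K A d)
    (hB : Dn K B 0) : Dn K (A ∪ B) d := by
  have h1 := hA.add (Dn_subset (Set.sdiff_subset (s := B) (t := A)) hB) Set.disjoint_sdiff_right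
  rwa [Set.union_sdiff_self, add_zero] at h1

/-- changing a set by a set of density zero -/
theorem Dn.congr {A B F : Set (HeightOneSpectrum (𝓞 K))} {d : ℝ} (hA : Dn K A d) (hF : Dn K F 0)
    (h1 : A ⊆ B ∪ F) (h2 : B ⊆ A ∪ F) : Dn K B d := by
  obtain ⟨C, hC⟩ := hA
  obtain ⟨C', hC'⟩ := hF
  refine ⟨C + C', fun x h0 h3 => ?_⟩
  have e1 := (pS_mono h1 h0).trans (pS_union_le B F h0)
  have e2 := (pS_mono h2 h0).trans (pS_union_le A F h0)
  have e3 := hC x h0 h3
  have e4 := hC' x h0 h3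
  rw [zero_mul, sub_zero] at e4
  rw [abs_le] at e3 e4 ⊢
  constructor <;> linarith [e3.1, e3.2, e4.1, e4.2]

theorem tendsto_log_inv : Tendsto (fun x : ℝ => Real.log (1 / x)) (𝓝[>] 0) atTop := by
  have h := tendsto_neg_atBot_atTop.comp Real.tendsto_log_nhdsGT_zero
  refine h.congr fun x => ?_
  rw [Function.comp_apply, one_div, Real.log_inv]

/-- The density in the sense of Dirichlet. -/
theorem Dn.tendsto {A : Set (HeightOneSpectrum (𝓞 K))} {d : ℝ} (hA : Dn K A d) :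
    Tendsto (fun s : ℝ =>
      (∑' v : HeightOneSpectrum (𝓞 K),
        A.indicator (fun w => ((Ideal.absNorm w.asIdeal : ℕ) : ℝ) ^ (-s)) v) /
      (∑' v : HeightOneSpectrum (𝓞 K), ((Ideal.absNorm v.asIdeal : ℕ) : ℝ) ^ (-s)))
      (𝓝[>] 1) (𝓝 d) := by
  -- in terms of `x = s - 1`
  have h0 : Tendsto (fun x : ℝ => pS K A x / pS K Set.univ x) (𝓝[>] 0) (𝓝 d) := by
    have key : ∀ (B : Set (HeightOneSpectrum (𝓞 K))) (e : ℝ), Dn K B e →
        Tendsto (fun x : ℝ => pS K B x / Real.log (1 / x)) (𝓝[>] 0) (𝓝 e) := by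
      intro B e hB
      obtain ⟨C, hC⟩ := hB
      have h1 : Tendsto (fun x : ℝ => C / Real.log (1 / x)) (𝓝[>] 0) (𝓝 0) :=
        tendsto_log_inv.const_div_atTop C
      rw [tendsto_iff_dist_tendsto_zero]
      refine squeeze_zero' (Eventually.of_forall fun x => dist_nonneg) ?_ h1
      have h2 : ∀ᶠ x : ℝ in 𝓝[>] 0, x < 1 := by
        filter_upwards [Ioo_mem_nhdsGT (zero_lt_one : (0 : ℝ) < 1)] with x hx
        exact hx.2
      filter_upwards [self_mem_nhdsWithin, h2] with x hx0 hx1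
      have hx0' : (0 : ℝ) < x := hx0
      have hl : 0 < Real.log (1 / x) := Real.log_pos (by rw [lt_div_iff₀ hx0']; linarith)
      rw [Real.dist_eq, div_sub' hl.ne', abs_div, abs_of_pos hl]
      refine div_le_div_of_nonneg_right ?_ hl.le
      have := hC x hx0' hx1.le
      rwa [mul_comm] 
    have hu := key _ _ (Dn_univ (K := K))
    have h2 := (key A d hA).div hu one_ne_zero
    rw [div_one] at h2
    refine h2.congr' ?_
    have h2 : ∀ᶠ x : ℝ in 𝓝[>] 0, x < 1 := by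
      filter_upwards [Ioo_mem_nhdsGT (zero_lt_one : (0 : ℝ) < 1)] with x hx
      exact hx.2
    filter_upwards [self_mem_nhdsWithin, h2] with x hx0 hx1
    have hx0' : (0 : ℝ) < x := hx0
    have hl : 0 < Real.log (1 / x) := Real.log_pos (by rw [lt_div_iff₀ hx0']; linarith)
    exact div_div_div_cancel_right₀ hl.ne' _ _
  have h1 : Tendsto (fun s : ℝ => s - 1) (𝓝[>] 1) (𝓝[>] 0) := by
    rw [tendsto_nhdsWithin_iff]
    constructor
    · have h5 : Tendsto (fun x : ℝ => x - 1) (𝓝 1) (𝓝 (1 - 1)) := by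
        apply Continuous.tendsto
        fun_prop
      rw [sub_self] at h5
      exact h5.mono_left nhdsWithin_le_nhds
    · filter_upwards [self_mem_nhdsWithin] with y hy
      have : (1 : ℝ) < y := hy
      show (0 : ℝ) < y - 1
      linarith
  refine (h0.comp h1).congr fun s => ?_
  simp only [Function.comp_apply, pS, Set.indicator_univ, nm]
  rw [show (1 : ℝ) + (s - 1) = s by ring]

end Pool.Agent.ZD
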