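import Pool.Agent.Lib.ZD.Basic

/-!
# The density of the primes that split completely in a Galois extension
-/

set_option autoImplicit false

namespace Pool.Agent.ZD

open NumberField IsDedekindDomain Filter Topology

/-- the primes of `L` over `v` -/
def abv {K : Type} (L : Type) [Field K] [NumberField K] [Field L] [NumberField L] [Algebra K L]
    (v : HeightOneSpectrum (𝓞 K)) : Set (HeightOneSpectrum (𝓞 L)) :=
  {w | w.under (𝓞 K) = v}

/-- the primes of `K` that split completely in `L` -/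
def Spl (K L : Type) [Field K] [NumberField K] [Field L] [NumberField L] [Algebra K L] :
    Set (HeightOneSpectrum (𝓞 K)) :=
  {v | (abv L v).ncard = Module.finrank K L}

section

variable {K L : Type} [Field K] [NumberField K] [Field L] [NumberField L] [Algebra K L]

theorem mem_abv {v : HeightOneSpectrum (𝓞 K)} {w : HeightOneSpectrum (𝓞 L)} :
    w ∈ abv L v ↔ w.asIdeal.comap (algebraMap (𝓞 K) (𝓞 L)) = v.asIdeal := by
  unfold abv
  rw [Set.mem_ofPred_eq, HeightOneSpectrum.ext_iff]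
  rfl

theorem liesOver {v : HeightOneSpectrum (𝓞 K)} {w : HeightOneSpectrum (𝓞 L)}
    (h : w ∈ abv L v) : w.asIdeal.LiesOver v.asIdeal := ⟨(mem_abv.1 h).symm⟩

theorem image_abv (v : HeightOneSpectrum (𝓞 K)) :
    (fun w : HeightOneSpectrum (𝓞 L) => w.asIdeal) '' abv L v =
      Ideal.primesOver v.asIdeal (𝓞 L) := by
  ext P
  constructor
  · rintro ⟨w, hw, rfl⟩
    exact ⟨w.isPrime, liesOver hw⟩
  · rintro ⟨hP, hP2⟩
    have hne : P ≠ ⊥ := Ideal.ne_bot_of_liesOver_of_ne_bot v.ne_bot P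
    exact ⟨⟨P, hP, hne⟩, mem_abv.2 hP2.over.symm, rfl⟩

omit [NumberField L] in
theorem asIdeal_inj : Function.Injective (fun w : HeightOneSpectrum (𝓞 L) => w.asIdeal) :=
  fun _ _ h => HeightOneSpectrum.ext h

theorem ncard_abv (v : HeightOneSpectrum (𝓞 K)) :
    (abv L v).ncard = (Ideal.primesOver v.asIdeal (𝓞 L)).ncard := by
  rw [← image_abv, Set.ncard_image_of_injective _ asIdeal_inj]

theorem finite_abv (v : HeightOneSpectrum (𝓞 K)) : (abv L v).Finite := by
  have h : (Ideal.primesOver v.asIdeal (𝓞 L)).Finite :=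
    Algebra.QuasiFinite.finite_primesOver v.asIdeal
  rw [← image_abv] at h
  exact Set.Finite.of_finite_image h asIdeal_inj.injOn

theorem abv_nonempty (v : HeightOneSpectrum (𝓞 K)) : (abv L v).Nonempty := by
  obtain ⟨P, hP1, hP2⟩ := Ideal.exists_maximal_ideal_liesOver_of_isIntegral (S := 𝓞 L) v.asIdeal
  have h : P ∈ Ideal.primesOver v.asIdeal (𝓞 L) := ⟨hP1.isPrime, hP2⟩
  rw [← image_abv] at h
  obtain ⟨w, hw, _⟩ := h
  exact ⟨w, hw⟩

open Classical in
/-- The decomposition of a prime in a Galois extension. -/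
theorem local_data [IsGalois K L] (v : HeightOneSpectrum (𝓞 K)) : ∃ e f : ℕ, 0 < e ∧ 0 < f ∧
    (abv L v).ncard * (e * f) = Module.finrank K L ∧
    (∀ w ∈ abv L v, nm w = nm v ^ f) ∧
    (e ≠ 1 → ∀ w ∈ abv L v, w.asIdeal ∣ differentIdeal (𝓞 K) (𝓞 L)) := by
  have hcard := Ideal.ncard_primesOver_mul_ramificationIdxIn_mul_inertiaDegIn v.asIdeal (𝓞 L)
    Gal(L/K)
  rw [← ncard_abv, IsGalois.card_aut_eq_finrank] at hcard
  have hn : 0 < Module.finrank K L := Module.finrank_pos
  have hpos : 0 < v.asIdeal.ramificationIdxIn (𝓞 L) * v.asIdeal.inertiaDegIn (𝓞 L) := by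
    rcases Nat.eq_zero_or_pos (v.asIdeal.ramificationIdxIn (𝓞 L) *
      v.asIdeal.inertiaDegIn (𝓞 L)) with h | h
    · rw [h, mul_zero] at hcard
      omega
    · exact h
  refine ⟨v.asIdeal.ramificationIdxIn (𝓞 L), v.asIdeal.inertiaDegIn (𝓞 L),
    Nat.pos_of_ne_zero fun h => by simp [h] at hpos,
    Nat.pos_of_ne_zero fun h => by simp [h] at hpos, hcard, ?_, ?_⟩
  · intro w hw
    have := liesOver hw
    have h1 := Ideal.absNorm_eq_pow_inertiaDeg'_of_liesOver w.asIdeal v.asIdeal v.isPrime v.ne_bot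
    unfold nm
    rw [h1, Ideal.inertiaDegIn_eq_inertiaDeg v.asIdeal w.asIdeal Gal(L/K),
      Ideal.inertiaDeg'_eq_inertiaDeg]
  · intro he w hw
    have := liesOver hw
    by_contra hcon
    apply he
    have h1 : Algebra.IsUnramifiedAt (𝓞 K) w.asIdeal := by
      by_contra h2
      exact hcon (dvd_differentIdeal_iff.2 h2)
    rw [Ideal.ramificationIdxIn_eq_ramificationIdx v.asIdeal w.asIdeal Gal(L/K)]
    exact Ideal.ramificationIdx_eq_one_of_isUnramifiedAt

/-- the primes that are ramified -/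
theorem finite_ram : {v : HeightOneSpectrum (𝓞 K) | ∃ w ∈ abv L v,
    w.asIdeal ∣ differentIdeal (𝓞 K) (𝓞 L)}.Finite := by
  have h1 : {w : HeightOneSpectrum (𝓞 L) | w.asIdeal ∣ differentIdeal (𝓞 K) (𝓞 L)}.Finite :=
    Ideal.finite_factors (by
      rw [← Ideal.zero_eq_bot.symm]
      exact differentIdeal_ne_bot)
  refine (h1.image fun w => w.under (𝓞 K)).subset ?_
  rintro v ⟨w, hw, hd⟩
  exact ⟨w, hd, hw⟩

end

/-- sums over fibres -/
theorem hasSum_fiber {W V A : Type} [NormedAddCommGroup A] [CompleteSpace A] (π : W → V)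
    (F : V → Finset W) (hF : ∀ v w, w ∈ F v ↔ π w = v) (f : W → A) (hf : Summable f) :
    HasSum (fun v => ∑ w ∈ F v, f w) (∑' w, f w) := by
  have h1 : HasSum (f ∘ Equiv.sigmaFiberEquiv π) (∑' w, f w) :=
    (Equiv.sigmaFiberEquiv π).hasSum_iff.2 hf.hasSum
  refine h1.sigma (fun v => ?_)
  have h2 : HasSum (f ∘ ((↑) : {w // w ∈ F v} → W)) (∑ w ∈ F v, f w) := (F v).hasSum f
  let e : {w // w ∈ F v} ≃ {w // π w = v} := Equiv.subtypeEquivRight (fun w => hF v w)
  refine e.hasSum_iff.1 ?_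
  exact h2

theorem compare {W V : Type} (π : W → V) (F : V → Finset W) (hF : ∀ v w, w ∈ F v ↔ π w = v)
    (f : W → ℝ) (hf : Summable f) (g B : V → ℝ) (hB : Summable B)
    (h : ∀ v, |(∑ w ∈ F v, f w) - g v| ≤ B v) :
    |∑' w, f w - ∑' v, g v| ≤ ∑' v, B v := by
  have h1 := hasSum_fiber π F hF f hf
  have hr : Summable (fun v => (∑ w ∈ F v, f w) - g v) := Summable.of_norm_bounded hB h
  have hg : Summable g := by
    have := h1.summable.sub hr
    simpa using this
  have h2 : ∑' w, f w - ∑' v, g v = ∑' v, ((∑ w ∈ F v, f w) - g v) := by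
    rw [h1.summable.tsum_sub hg, h1.tsum_eq]
  rw [h2, ← Real.norm_eq_abs]
  exact tsum_of_norm_bounded hB.hasSum h

open Classical in
/-- **The primes that split completely in a Galois extension of degree `n` have density `1/n`.** -/
theorem Dn_Spl (K L : Type) [Field K] [NumberField K] [Field L] [NumberField L] [Algebra K L]
    [IsGalois K L] : Dn K (Spl K L) (1 / Module.finrank K L) := by
  set n := Module.finrank K L with hn
  have hn0 : 0 < n := Module.finrank_pos
  have hn1 : (0 : ℝ) < n := by exact_mod_cast hn0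
  set R : Set (HeightOneSpectrum (𝓞 K)) := {v | ∃ w ∈ abv L v,
    w.asIdeal ∣ differentIdeal (𝓞 K) (𝓞 L)} with hR
  have hRf : R.Finite := finite_ram
  let F : HeightOneSpectrum (𝓞 K) → Finset (HeightOneSpectrum (𝓞 L)) :=
    fun v => (finite_abv (L := L) v).toFinset
  have hF : ∀ v w, w ∈ F v ↔ w.under (𝓞 K) = v := fun v w => by
    show w ∈ (finite_abv (L := L) v).toFinset ↔ _
    rw [Set.Finite.mem_toFinset]
    rfl
  have hcard : ∀ v, (F v).card = (abv L v).ncard := fun v =>
    (Set.ncard_eq_toFinset_card _ (finite_abv v)).symm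
  let B : HeightOneSpectrum (𝓞 K) → ℝ := fun v =>
    n * (nm v : ℝ) ^ (-2 : ℝ) + R.indicator (fun _ => (n : ℝ)) v
  have hB : Summable B := by
    refine (summable_two.mul_left _).add ?_
    refine summable_of_hasFiniteSupport (hRf.subset ?_)
    intro v hv
    by_contra h
    exact hv (Set.indicator_of_notMem h _)
  obtain ⟨C, hC⟩ := Dn_univ (K := L)
  refine ⟨(C + ∑' v, B v) / n, fun x h0 h1 => ?_⟩
  have key : ∀ v, |(∑ w ∈ F v, (nm w : ℝ) ^ (-(1 + x))) -
      n * (Spl K L).indicator (fun v => (nm v : ℝ) ^ (-(1 + x))) v| ≤ B v := by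
    intro v
    obtain ⟨e, f, he, hf, hef, hnm, hram⟩ := local_data (L := L) v
    rw [← hn] at hef
    have hv1 : (1 : ℝ) ≤ nm v := by exact_mod_cast nm_pos v
    have hRi : 0 ≤ R.indicator (fun _ => (n : ℝ)) v :=
      Set.indicator_nonneg (fun _ _ => hn1.le) v
    have hsq : 0 ≤ (nm v : ℝ) ^ (-2 : ℝ) := Real.rpow_nonneg (by linarith) _
    have hsum : ∑ w ∈ F v, (nm w : ℝ) ^ (-(1 + x)) =
        (abv L v).ncard * ((nm v : ℝ) ^ f) ^ (-(1 + x)) := by
      rw [← hcard, ← nsmul_eq_mul, ← Finset.sum_const]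
      refine Finset.sum_congr rfl fun w hw => ?_
      have hw' : w ∈ abv L v := (hF v w).1 hw
      rw [hnm w hw']
      push_cast
      rfl
    rw [hsum]
    by_cases hv : v ∈ Spl K L
    · have hv' : (abv L v).ncard = n := hv
      have hf1 : f = 1 := by
        rw [hv'] at hef
        have : e * f = 1 := by
          apply Nat.eq_of_mul_eq_mul_left hn0
          rw [hef, mul_one]
        exact Nat.eq_one_of_mul_eq_one_left this
      rw [Set.indicator_of_mem hv, hv', hf1, pow_one, sub_self, abs_zero]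
      positivity
    · have hgn : (abv L v).ncard ≤ n := by
        rw [← hef]
        exact Nat.le_mul_of_pos_right _ (Nat.mul_pos he hf)
      have hgn' : ((abv L v).ncard : ℝ) ≤ n := by exact_mod_cast hgn
      rw [Set.indicator_of_notMem hv, mul_zero, sub_zero, abs_of_nonneg (by positivity)]
      have ht : 0 ≤ ((nm v : ℝ) ^ f) ^ (-(1 + x)) := by positivity
      rcases Nat.lt_or_ge 1 f with hf2 | hf2
      · have h3 : ((nm v : ℝ) ^ f) ^ (-(1 + x)) ≤ (nm v : ℝ) ^ (-2 : ℝ) := by
          rw [← Real.rpow_natCast, ← Real.rpow_mul (by linarith)]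
          refine Real.rpow_le_rpow_of_exponent_le hv1 ?_
          have : (2 : ℝ) ≤ f := by exact_mod_cast hf2
          nlinarith
        calc ((abv L v).ncard : ℝ) * ((nm v : ℝ) ^ f) ^ (-(1 + x))
            ≤ n * (nm v : ℝ) ^ (-2 : ℝ) := mul_le_mul hgn' h3 ht hn1.le
          _ ≤ B v := le_add_of_nonneg_right hRi
      · have hf1 : f = 1 := by omega
        have he1 : e ≠ 1 := by
          intro he1
          rw [he1, hf1, mul_one, mul_one] at hef
          exact hv hef
        have hvR : v ∈ R := by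
          obtain ⟨w, hw⟩ := abv_nonempty (L := L) v
          exact ⟨w, hw, hram he1 w hw⟩
        have h3 : ((nm v : ℝ) ^ f) ^ (-(1 + x)) ≤ 1 := by
          rw [hf1, pow_one]
          exact term_le_one v h0.le
        calc ((abv L v).ncard : ℝ) * ((nm v : ℝ) ^ f) ^ (-(1 + x))
            ≤ n * 1 := mul_le_mul hgn' h3 ht hn1.le
          _ = R.indicator (fun _ => (n : ℝ)) v := by
            rw [Set.indicator_of_mem hvR, mul_one]
          _ ≤ B v := le_add_of_nonneg_left (by positivity)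
  have hcmp := compare (fun w : HeightOneSpectrum (𝓞 L) => w.under (𝓞 K)) F hF
    (fun w => (nm w : ℝ) ^ (-(1 + x))) (summable_all h0)
    (fun v => n * (Spl K L).indicator (fun v => (nm v : ℝ) ^ (-(1 + x))) v) B hB key
  rw [tsum_mul_left] at hcmp
  have hL : pS L Set.univ x = ∑' w : HeightOneSpectrum (𝓞 L), (nm w : ℝ) ^ (-(1 + x)) := by
    unfold pS
    simp only [Set.indicator_univ]
  have hK : pS K (Spl K L) x = ∑' v : HeightOneSpectrum (𝓞 K),
    (Spl K L).indicator (fun v => (nm v : ℝ) ^ (-(1 + x))) v := rfl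
  rw [← hL, ← hK] at hcmp
  have h2 := hC x h0 h1
  rw [one_mul] at h2
  rw [le_div_iff₀ hn1, ← abs_of_pos hn1, ← abs_mul, abs_of_pos hn1]
  have e1 : (pS K (Spl K L) x - 1 / (n : ℝ) * Real.log (1 / x)) * n =
      n * pS K (Spl K L) x - Real.log (1 / x) := by
    field_simp
  rw [e1]
  rw [abs_le] at hcmp h2 ⊢
  constructor <;> linarith [hcmp.1, hcmp.2, h2.1, h2.2]

/-! ## Existence of primes -/

/-- upper bounds for the density -/
def Up (K : Type) [Field K] [NumberField K] (A : Set (HeightOneSpectrum (𝓞 K))) (d : ℝ) : Prop :=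
  ∃ C : ℝ, ∀ x : ℝ, 0 < x → x ≤ 1 → pS K A x ≤ d * Real.log (1 / x) + C

variable {K : Type} [Field K] [NumberField K]

theorem Dn.up {A : Set (HeightOneSpectrum (𝓞 K))} {d : ℝ} (h : Dn K A d) : Up K A d := by
  obtain ⟨C, hC⟩ := h
  refine ⟨C, fun x h0 h1 => ?_⟩
  have := (abs_le.1 (hC x h0 h1)).2
  linarith

theorem Up.union {A B : Set (HeightOneSpectrum (𝓞 K))} {d e : ℝ} (hA : Up K A d)
    (hB : Up K B e) : Up K (A ∪ B) (d + e) := by
  obtain ⟨C, hC⟩ := hA
  obtain ⟨C', hC'⟩ := hB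
  refine ⟨C + C', fun x h0 h1 => ?_⟩
  have h2 := pS_union_le A B h0
  have h3 := hC x h0 h1
  have h4 := hC' x h0 h1
  linarith [add_mul d e (Real.log (1 / x))]

theorem Up.mono {A B : Set (HeightOneSpectrum (𝓞 K))} {d : ℝ} (hB : Up K B d) (h : A ⊆ B) :
    Up K A d := by
  obtain ⟨C, hC⟩ := hB
  exact ⟨C, fun x h0 h1 => (pS_mono h h0).trans (hC x h0 h1)⟩

/-- A set of density `a` is not contained in a set of smaller upper density. -/
theorem infinite_diff {A B : Set (HeightOneSpectrum (𝓞 K))} {a b : ℝ} (hA : Dn K A a)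
    (hB : Up K B b) (hab : b < a) : (A \ B).Infinite := by
  intro hfin
  have h1 : Up K A (b + 0) := (hB.union (Dn_finite hfin).up).mono (by
    intro v hv
    by_cases h : v ∈ B
    · exact Or.inl h
    · exact Or.inr ⟨hv, h⟩)
  rw [add_zero] at h1
  obtain ⟨C, hC⟩ := h1
  obtain ⟨C', hC'⟩ := hA
  have h2 : ∀ x : ℝ, 0 < x → x ≤ 1 → (a - b) * Real.log (1 / x) ≤ C + C' := by
    intro x h0 h1
    have h3 := hC x h0 h1
    have h4 := (abs_le.1 (hC' x h0 h1)).1
    linarith [sub_mul a b (Real.log (1 / x))]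
  have hab' : 0 < a - b := by linarith
  have h5 := h2 (Real.exp (-((|C + C'| + 1) / (a - b)))) (Real.exp_pos _) (by
    rw [Real.exp_le_one_iff]
    have : 0 ≤ (|C + C'| + 1) / (a - b) := by positivity
    linarith)
  rw [one_div, Real.log_inv, Real.log_exp, neg_neg, mul_div_cancel₀ _ hab'.ne'] at h5
  have := le_abs_self (C + C')
  linarith

end Pool.Agent.ZD
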