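import Pool.Agent.Lib.ZD.CycIrr

/-!
The selection of primes.

* `natCast_mem_different`: `n` is in the different of a cyclotomic extension of level `n`.
* `irr_cyc_cyc`: `cyclotomic q` is irreducible over `F(ζ_n)` when `q ∤ n` is unramified in `F`.
-/

set_option autoImplicit false
set_option linter.unusedSectionVars false

open NumberField IsDedekindDomain Polynomial

namespace Pool.Agent.ZD

section

variable {K F : Type} [Field K] [NumberField K] [Field F] [NumberField F] [Algebra K F]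

theorem natCast_mem_different (n : ℕ) [NeZero n] [IsCyclotomicExtension {n} K F] :
    (n : 𝓞 F) ∈ differentIdeal (𝓞 K) (𝓞 F) := by
  let ζ : F := IsCyclotomicExtension.zeta n K F
  have hζ : IsPrimitiveRoot ζ n := IsCyclotomicExtension.zeta_spec n K F
  have hint : IsIntegral ℤ ζ := hζ.isIntegral (NeZero.pos n)
  let z : 𝓞 F := ⟨ζ, hint⟩
  have hz : z ^ n = 1 := by
    apply RingOfIntegers.ext
    show ζ ^ n = 1
    exact hζ.pow_eq_one
  have hadj : Algebra.adjoin K {algebraMap (𝓞 F) F z} = ⊤ :=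
    IsCyclotomicExtension.adjoin_primitive_root_eq_top hζ
  have hd := aeval_derivative_mem_differentIdeal (𝓞 K) K F z hadj
  have hintA : IsIntegral (𝓞 K) z := by
    refine ⟨X ^ n - 1, ?_, ?_⟩
    · exact monic_X_pow_sub_C 1 (NeZero.ne n)
    · simp [hz]
  have hdvd : minpoly (𝓞 K) z ∣ X ^ n - 1 := by
    refine minpoly.isIntegrallyClosed_dvd hintA ?_
    simp [hz]
  obtain ⟨g, hg⟩ := hdvd
  have h1 := congrArg (fun P : (𝓞 K)[X] => aeval z (derivative P)) hg
  simp only [derivative_mul, map_add, map_mul, minpoly.aeval, zero_mul, add_zero,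
    derivative_sub, derivative_one, sub_zero, derivative_X_pow, map_natCast, aeval_X, map_pow] at h1
  have h2 : (n : 𝓞 F) * z ^ (n - 1) ∈ differentIdeal (𝓞 K) (𝓞 F) := by
    rw [h1]
    exact Ideal.mul_mem_right _ _ hd
  have h3 : (n : 𝓞 F) = ((n : 𝓞 F) * z ^ (n - 1)) * z := by
    rw [mul_assoc, ← pow_succ, Nat.sub_add_cancel (NeZero.pos n), hz, mul_one]
  rw [h3]
  exact Ideal.mul_mem_right _ _ h2

/-- Unramified primes do not increase multiplicities. -/
theorem not_mem_sq {w : HeightOneSpectrum (𝓞 F)}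
    (hw : ¬ w.asIdeal ∣ differentIdeal (𝓞 K) (𝓞 F)) {x : 𝓞 K}
    (hx2 : x ∉ (w.under (𝓞 K)).asIdeal ^ 2) : algebraMap (𝓞 K) (𝓞 F) x ∉ w.asIdeal ^ 2 := by
  intro hcon
  set v := w.under (𝓞 K) with hv
  apply hw
  have hmax : v.asIdeal.IsMaximal := v.isMaximal
  have hx1 : x ∈ v.asIdeal := by
    show algebraMap (𝓞 K) (𝓞 F) x ∈ w.asIdeal
    exact Ideal.pow_le_self two_ne_zero hcon
  have h1 : v.asIdeal ∣ Ideal.span {x} := by
    rw [Ideal.dvd_iff_le, Ideal.span_le, Set.singleton_subset_iff]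
    exact hx1
  obtain ⟨a, ha⟩ := h1
  have h2 : ¬ a ≤ v.asIdeal := by
    intro h
    apply hx2
    have h3 : Ideal.span {x} ≤ v.asIdeal ^ 2 := by
      rw [ha, pow_two]
      exact Ideal.mul_mono_right h
    exact h3 (Ideal.mem_span_singleton_self x)
  obtain ⟨y, hya, hyv⟩ := Set.not_subset.1 h2
  have hyw : algebraMap (𝓞 K) (𝓞 F) y ∉ w.asIdeal := hyv
  have h3 : v.asIdeal.map (algebraMap (𝓞 K) (𝓞 F)) ≤ w.asIdeal ^ 2 := by
    rw [Ideal.map_le_iff_le_comap]
    intro z hz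
    show algebraMap (𝓞 K) (𝓞 F) z ∈ w.asIdeal ^ 2
    have h4 : z * y ∈ Ideal.span {x} := by
      rw [ha]
      exact Ideal.mul_mem_mul hz hya
    obtain ⟨t, ht⟩ := Ideal.mem_span_singleton.1 h4
    have h5 : algebraMap (𝓞 K) (𝓞 F) y * algebraMap (𝓞 K) (𝓞 F) z ∈ w.asIdeal ^ 2 := by
      rw [← map_mul, mul_comm, ht, map_mul]
      exact Ideal.mul_mem_right _ _ hcon
    rcases (Ideal.IsPrime.mul_mem_pow w.asIdeal h5) with h | h
    · exact absurd h hyw
    · exact h
  have h4 := pow_sub_one_dvd_differentIdeal (𝓞 K) w.asIdeal 2 v.ne_bot (Ideal.dvd_iff_le.2 h3)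
  simpa using h4

/-- `cyclotomic q` stays irreducible over `K(ζ_n)` if `q ∤ n` is unramified at some prime of `K`. -/
theorem irr_cyc_cyc (n : ℕ) [NeZero n] [IsCyclotomicExtension {n} K F] (q : ℕ) [hq : Fact q.Prime]
    (hqn : ¬ q ∣ n) (v : HeightOneSpectrum (𝓞 K)) (h1 : (q : 𝓞 K) ∈ v.asIdeal)
    (h2 : (q : 𝓞 K) ∉ v.asIdeal ^ 2) : Irreducible (cyclotomic q F) := by
  obtain ⟨w, hw⟩ := abv_nonempty (L := F) v
  have hwv : w.under (𝓞 K) = v := hw
  subst hwv
  have hqw : (q : 𝓞 F) ∈ w.asIdeal := by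
    have h3 : algebraMap (𝓞 K) (𝓞 F) (q : 𝓞 K) ∈ w.asIdeal := h1
    simpa using h3
  have hnd : ¬ w.asIdeal ∣ differentIdeal (𝓞 K) (𝓞 F) := by
    intro h
    have h3 : (n : 𝓞 F) ∈ w.asIdeal := (Ideal.dvd_iff_le.1 h) (natCast_mem_different n)
    have h4 : IsCoprime (q : ℤ) (n : ℤ) :=
      Nat.isCoprime_iff_coprime.2 ((Nat.Prime.coprime_iff_not_dvd hq.out).2 hqn)
    obtain ⟨a, b, hab⟩ := h4
    apply w.isPrime.ne_top
    rw [Ideal.eq_top_iff_one]
    have h4 : (1 : 𝓞 F) = (a : 𝓞 F) * q + (b : 𝓞 F) * n := by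
      have := congrArg (Int.cast : ℤ → 𝓞 F) hab
      push_cast at this
      exact this.symm
    rw [h4]
    exact w.asIdeal.add_mem (w.asIdeal.mul_mem_left _ hqw) (w.asIdeal.mul_mem_left _ h3)
  have h3 := not_mem_sq hnd h2
  rw [map_natCast] at h3
  exact irr_cyc_of_unram q w hqw h3

/-- the prime numbers that are ramified -/
def bad (K : Type) [Field K] [NumberField K] : Set ℕ :=
  {q | q.Prime ∧ ∃ v : HeightOneSpectrum (𝓞 K), (q : 𝓞 K) ∈ v.asIdeal ^ 2}

theorem finite_bad (K : Type) [Field K] [NumberField K] : (bad K).Finite := by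
  let W : Set (HeightOneSpectrum (𝓞 K)) := {w | w.asIdeal ∣ differentIdeal ℤ (𝓞 K)}
  have hW : W.Finite := Ideal.finite_factors (by
      rw [← Ideal.zero_eq_bot.symm]
      exact differentIdeal_ne_bot)
  have h1 : bad K ⊆ ⋃ w ∈ W, {q : ℕ | q.Prime ∧ (q : 𝓞 K) ∈ w.asIdeal} := by
    rintro q ⟨hq, v, hv⟩
    rw [Set.mem_iUnion₂]
    refine ⟨v, ?_, hq, Ideal.pow_le_self two_ne_zero hv⟩
    have hqz : Prime (q : ℤ) := Nat.prime_iff_prime_int.1 hq
    have hmax : (Ideal.span {(q : ℤ)}).IsMaximal :=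
      PrincipalIdealRing.isMaximal_of_irreducible hqz.irreducible
    have hne : Ideal.span {(q : ℤ)} ≠ ⊥ := by
      rw [Ne, Ideal.span_singleton_eq_bot]
      exact_mod_cast hq.ne_zero
    have h3 := pow_sub_one_dvd_differentIdeal ℤ v.asIdeal 2 hne (by
      rw [Ideal.dvd_iff_le, Ideal.map_span, Set.image_singleton, Ideal.span_le,
        Set.singleton_subset_iff]
      simpa using hv)
    show v.asIdeal ∣ differentIdeal ℤ (𝓞 K)
    simpa using h3
  refine (hW.biUnion fun w _ => ?_).subset h1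
  refine Set.Subsingleton.finite ?_
  rintro p ⟨hp, hp2⟩ q ⟨hq, hq2⟩
  exact prime_unique hp hq hp2 hq2

theorem val_eq_exp {v : HeightOneSpectrum (𝓞 K)} {x : 𝓞 K} (h1 : x ∈ v.asIdeal)
    (h2 : x ∉ v.asIdeal ^ 2) : v.valuation K (algebraMap (𝓞 K) K x) = WithZero.exp (-1 : ℤ) := by
  rw [HeightOneSpectrum.valuation_of_algebraMap]
  have hx : x ≠ 0 := by
    rintro rfl
    exact h2 (Ideal.zero_mem _)
  have h3 : v.intValuation x ≤ WithZero.exp (-((1 : ℕ) : ℤ)) := by
    rw [HeightOneSpectrum.intValuation_le_pow_iff_mem, pow_one]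
    exact h1
  have h4 : ¬ v.intValuation x ≤ WithZero.exp (-((2 : ℕ) : ℤ)) := by
    rw [HeightOneSpectrum.intValuation_le_pow_iff_mem]
    exact h2
  rw [HeightOneSpectrum.intValuation_eq_exp_neg_multiplicity v hx] at h3 h4 ⊢
  rw [WithZero.exp_le_exp] at h3 h4
  congr 1
  push_cast at h3 h4
  omega

/-- a prime with prime norm contains its norm -/
theorem nm_mem (v : HeightOneSpectrum (𝓞 K)) : ((nm v : ℕ) : 𝓞 K) ∈ v.asIdeal :=
  Ideal.absNorm_mem v.asIdeal

theorem finite_nm_eq (K : Type) [Field K] [NumberField K] (p : ℕ) :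
    {v : HeightOneSpectrum (𝓞 K) | nm v = p}.Finite := by
  rcases Nat.eq_zero_or_pos p with rfl | hp
  · convert Set.finite_empty
    ext v
    have := nm_pos v
    simp only [Set.mem_ofPred_eq, Set.mem_empty_iff_false, iff_false]
    omega
  · refine (finite_dvd_n (L := K) p hp.ne').subset fun v hv => ?_
    have h := nm_mem v
    rw [show nm v = p from hv] at h
    exact h

theorem finite_nm_mem (K : Type) [Field K] [NumberField K] {S : Set ℕ} (hS : S.Finite) :
    {v : HeightOneSpectrum (𝓞 K) | nm v ∈ S}.Finite := by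
  have h : {v : HeightOneSpectrum (𝓞 K) | nm v ∈ S} =
      ⋃ p ∈ S, {v : HeightOneSpectrum (𝓞 K) | nm v = p} := by
    ext v
    simp
  rw [h]
  exact hS.biUnion fun p _ => finite_nm_eq K p

/-- The image of an infinite set of primes in a subfield is infinite. -/
theorem infinite_under {S : Set (HeightOneSpectrum (𝓞 F))} (hS : S.Infinite) :
    ((fun w : HeightOneSpectrum (𝓞 F) => w.under (𝓞 K)) '' S).Infinite := by
  intro hfin
  apply hS
  refine (hfin.biUnion (t := fun v => abv F v) fun v _ => finite_abv v).subset ?_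
  intro w hw
  rw [Set.mem_iUnion₂]
  exact ⟨w.under (𝓞 K), ⟨w, hw, rfl⟩, rfl⟩

end

section

variable {F : Type} [Field F] [NumberField F]

/-- If `F` contains the `n`-th roots of unity then `n ∣ nm w - 1`. -/
theorem dvd_nm_sub_one (n : ℕ) [NeZero n] {ζ : F} (hζ : IsPrimitiveRoot ζ n)
    (w : HeightOneSpectrum (𝓞 F)) (hw : (n : 𝓞 F) ∉ w.asIdeal) : n ∣ nm w - 1 := by
  obtain ⟨φ, hφ⟩ := exists_frob (L := F) (M := F) w
  have h1 : φ ζ = ζ ^ nm w := by
    refine (frob_root hφ hw hζ.pow_eq_one).trans ?_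
    congr 2
  have h2 : φ ζ = ζ := φ.commutes ζ
  rw [h2] at h1
  have h3 := nm_pos w
  have h4 : ζ * ζ ^ (nm w - 1) = ζ * 1 := by
    rw [← pow_succ', Nat.sub_add_cancel h3, ← h1, mul_one]
  exact hζ.dvd_of_pow_eq_one _ (mul_left_cancel₀ (hζ.ne_zero (NeZero.ne n)) h4)

/-- **Selection of primes.** `q` a prime which does not divide `n` and is unramified in `K`:
infinitely many primes `w` of `K` of prime norm `p`, `p = 1 mod n`, `p` a primitive root mod `q`. -/
theorem sel (K : Type) [Field K] [NumberField K] (n : ℕ) [NeZero n] (q : ℕ) [hq : Fact q.Prime]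
    (hqn : ¬ q ∣ n) (hqb : q ∉ bad K) :
    {w : HeightOneSpectrum (𝓞 K) | (nm w).Prime ∧ n ∣ nm w - 1 ∧
      orderOf (nm w : ZMod q) = q - 1}.Infinite := by
  let F := CyclotomicField n K
  have hNF : NumberField F := inferInstance
  obtain ⟨v, hv⟩ := exists_above K hq.out
  have hv2 : (q : 𝓞 K) ∉ v.asIdeal ^ 2 := fun h => hqb ⟨hq.out, v, h⟩
  have hirr : Irreducible (cyclotomic q F) := irr_cyc_cyc (K := K) n q hqn v hv hv2
  have h1 := infinite_primitive_root (L := F) q hirr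
  have h2 := h1.sdiff (finite_dvd_n (L := F) n (NeZero.ne n))
  have h3 := infinite_under (K := K) h2
  refine h3.mono ?_
  rintro w ⟨u, ⟨⟨hu1, hu2⟩, hu3⟩, rfl⟩
  have h4 := (under_deg_one (L := K) u hu1).1
  show (nm (u.under (𝓞 K))).Prime ∧ n ∣ nm (u.under (𝓞 K)) - 1 ∧
      orderOf (nm (u.under (𝓞 K)) : ZMod q) = q - 1
  rw [h4]
  refine ⟨hu1, ?_, hu2⟩
  exact dvd_nm_sub_one n (IsCyclotomicExtension.zeta_spec n K F) u hu3

/-- **Selection of primes**, with an auxiliary Galois extension `F` in which all primes above `v`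
have degree one. -/
theorem sel_ext (K F : Type) [Field K] [NumberField K] [Field F] [NumberField F] [Algebra K F]
    [IsGalois K F] (n : ℕ) [NeZero n] (q : ℕ) [hq : Fact q.Prime] (hqn : ¬ q ∣ n)
    (hqb : q ∉ bad F) (S : Set ℕ) (hS : S.Finite) :
    {v : HeightOneSpectrum (𝓞 K) | (nm v).Prime ∧ n ∣ nm v - 1 ∧
      orderOf (nm v : ZMod q) = q - 1 ∧ nm v ∉ S ∧
      v.valuation K ((nm v : ℕ) : K) = WithZero.exp (-1 : ℤ) ∧
      ∀ w ∈ abv F v, nm w = nm v ∧
        w.valuation F ((nm w : ℕ) : F) = WithZero.exp (-1 : ℤ)}.Infinite := by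
  have h1 := sel F n q hqn hqb
  have h2 := h1.sdiff (finite_nm_mem F (hS.union ((finite_bad K).union (finite_bad F))))
  have h3 := infinite_under (K := K) h2
  refine h3.mono ?_
  rintro v ⟨w, ⟨⟨hw1, hw2, hw3⟩, hw4⟩, rfl⟩
  have h4 := (under_deg_one (L := K) w hw1).1
  have hS' : nm w ∉ S := fun h => hw4 (Or.inl h)
  have hK : nm w ∉ bad K := fun h => hw4 (Or.inr (Or.inl h))
  have hF : nm w ∉ bad F := fun h => hw4 (Or.inr (Or.inr h))
  have hval : ∀ (E : Type) [Field E] [NumberField E] (u : HeightOneSpectrum (𝓞 E)),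
      nm u = nm w → nm w ∉ bad E →
      u.valuation E ((nm u : ℕ) : E) = WithZero.exp (-1 : ℤ) := by
    intro E _ _ u hu hb
    have h5 := nm_mem u
    have h6 : ((nm u : ℕ) : 𝓞 E) ∉ u.asIdeal ^ 2 := by
      intro h7
      apply hb
      refine ⟨hw1, u, ?_⟩
      rwa [hu] at h7
    have h7 := val_eq_exp h5 h6
    rwa [map_natCast] at h7
  refine ⟨by rw [h4]; exact hw1, by rw [h4]; exact hw2, by rw [h4]; exact hw3,
    by rw [h4]; exact hS', hval K _ h4 hK, ?_⟩
  intro u hu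
  obtain ⟨e, f, _, _, _, h5, _⟩ := local_data (L := F) (w.under (𝓞 K))
  have h6 := h5 u hu
  have h7 := h5 w rfl
  have h8 : nm u = nm w := h6.trans h7.symm
  exact ⟨h8.trans h4.symm, hval F u h8 hF⟩

end

end Pool.Agent.ZD
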