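import Pool.Agent.Lib.ZD.Deg

/-!
# Primes modulo which given irreducible polynomials do not split into linear factors
-/

set_option autoImplicit false

namespace Pool.Agent.ZD

open NumberField IsDedekindDomain Filter Topology Polynomial

section

variable {K L : Type} [Field K] [NumberField K] [Field L] [NumberField L] [Algebra K L]

open Classical in
/-- the sum formula `∑ e f = n` -/
theorem sum_formula (v : HeightOneSpectrum (𝓞 K)) :
    (abv L v).ncard ≤ Module.finrank K L ∧
    ((abv L v).ncard = Module.finrank K L → ∀ w ∈ abv L v, nm w = nm v) := by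
  have hmax : v.asIdeal.IsMaximal := v.isMaximal
  have h1 := Ideal.sum_ramification_inertia (𝓞 L) K L (p := v.asIdeal) v.ne_bot
  have h2 : (IsDedekindDomain.primesOverFinset v.asIdeal (𝓞 L) : Set (Ideal (𝓞 L))) =
      Ideal.primesOver v.asIdeal (𝓞 L) :=
    IsDedekindDomain.coe_primesOverFinset v.ne_bot (𝓞 L)
  have hpos : ∀ P ∈ IsDedekindDomain.primesOverFinset v.asIdeal (𝓞 L),
      1 ≤ Ideal.ramificationIdx' v.asIdeal P * Ideal.inertiaDeg' v.asIdeal P := by
    intro P hP
    have hP' : P ∈ Ideal.primesOver v.asIdeal (𝓞 L) := by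
      rw [← h2]; exact hP
    have := hP'.1
    have := hP'.2
    have e1 := Ideal.IsDedekindDomain.ramificationIdx'_ne_zero_of_liesOver P v.ne_bot
    have e2 := Ideal.inertiaDeg'_ne_zero v.asIdeal P
    exact Nat.mul_pos (Nat.pos_of_ne_zero e1) (Nat.pos_of_ne_zero e2)
  have hc : (abv L v).ncard = (IsDedekindDomain.primesOverFinset v.asIdeal (𝓞 L)).card := by
    rw [ncard_abv, ← h2, Set.ncard_coe_finset]
  constructor
  · rw [hc, ← h1, Finset.card_eq_sum_ones]
    exact Finset.sum_le_sum hpos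
  · intro heq w hw
    rw [hc, ← h1, Finset.card_eq_sum_ones] at heq
    have h3 := (Finset.sum_eq_sum_iff_of_le hpos).1 heq
    have hw' : w.asIdeal ∈ IsDedekindDomain.primesOverFinset v.asIdeal (𝓞 L) := by
      rw [← Finset.mem_coe, h2, ← image_abv]
      exact ⟨w, hw, rfl⟩
    have h4 := h3 _ hw'
    have h5 : Ideal.inertiaDeg' v.asIdeal w.asIdeal = 1 := Nat.eq_one_of_mul_eq_one_left h4.symm
    have := liesOver hw
    have h6 := Ideal.absNorm_eq_pow_inertiaDeg'_of_liesOver w.asIdeal v.asIdeal v.isPrime v.ne_bot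
    unfold nm
    rw [h6, h5, pow_one]

open Classical in
/-- **The upper density of the primes that split completely is at most `1/n`.** -/
theorem Up_Spl (K L : Type) [Field K] [NumberField K] [Field L] [NumberField L] [Algebra K L] :
    Up K (Spl K L) (1 / Module.finrank K L) := by
  set n := Module.finrank K L with hn
  have hn0 : 0 < n := Module.finrank_pos
  have hn1 : (0 : ℝ) < n := by exact_mod_cast hn0
  let F : HeightOneSpectrum (𝓞 K) → Finset (HeightOneSpectrum (𝓞 L)) :=
    fun v => (finite_abv (L := L) v).toFinset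
  have hF : ∀ v w, w ∈ F v ↔ w.under (𝓞 K) = v := fun v w => by
    show w ∈ (finite_abv (L := L) v).toFinset ↔ _
    rw [Set.Finite.mem_toFinset]
    rfl
  have hcard : ∀ v, (F v).card = (abv L v).ncard := fun v =>
    (Set.ncard_eq_toFinset_card _ (finite_abv v)).symm
  obtain ⟨C, hC⟩ := Dn_univ (K := L)
  refine ⟨C / n, fun x h0 h1 => ?_⟩
  have hs := hasSum_fiber (fun w : HeightOneSpectrum (𝓞 L) => w.under (𝓞 K)) F hF
    (fun w => (nm w : ℝ) ^ (-(1 + x))) (summable_all h0)
  have hL : pS L Set.univ x = ∑' w : HeightOneSpectrum (𝓞 L), (nm w : ℝ) ^ (-(1 + x)) := by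
    unfold pS
    simp only [Set.indicator_univ]
  have key : n * pS K (Spl K L) x ≤ pS L Set.univ x := by
    rw [hL, ← hs.tsum_eq, pS, ← tsum_mul_left]
    refine ((summable_ind _ h0).mul_left _).tsum_le_tsum (fun v => ?_) hs.summable
    by_cases hv : v ∈ Spl K L
    · rw [Set.indicator_of_mem hv]
      have h2 : ∑ w ∈ F v, (nm w : ℝ) ^ (-(1 + x)) = n * (nm v : ℝ) ^ (-(1 + x)) := by
        have hv' : (abv L v).ncard = n := hv
        rw [← hv', ← hcard, ← nsmul_eq_mul, ← Finset.sum_const]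
        refine Finset.sum_congr rfl fun w hw => ?_
        rw [(sum_formula v).2 hv w ((hF v w).1 hw)]
      rw [h2]
    · rw [Set.indicator_of_notMem hv, mul_zero]
      exact Finset.sum_nonneg fun w _ => term_nonneg w x
  have h2 := (abs_le.1 (hC x h0 h1)).2
  rw [one_mul] at h2
  rw [← sub_nonneg]
  have e : 1 / (n : ℝ) * Real.log (1 / x) + C / n - pS K (Spl K L) x =
      (Real.log (1 / x) + C - n * pS K (Spl K L) x) / n := by
    field_simp
  rw [e]
  exact div_nonneg (by linarith) hn1.le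

/-- A root modulo `v` gives a prime over `v`. -/
theorem exists_root_prime {v : HeightOneSpectrum (𝓞 K)} (α : 𝓞 L) (g : (𝓞 K)[X])
    (hmin : ∀ p : (𝓞 K)[X], aeval α p = 0 → g ∣ p) (r : 𝓞 K) (hr : g.eval r ∈ v.asIdeal) :
    ∃ w ∈ abv L v, α - algebraMap (𝓞 K) (𝓞 L) r ∈ w.asIdeal := by
  let φ : (𝓞 K)[X] →+* (𝓞 K ⧸ v.asIdeal) :=
    (Ideal.Quotient.mk v.asIdeal).comp (evalRingHom r)
  have hφ : ∀ p, p ∈ RingHom.ker φ ↔ p.eval r ∈ v.asIdeal := fun p => by
    rw [RingHom.mem_ker]
    show Ideal.Quotient.mk v.asIdeal (p.eval r) = 0 ↔ _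
    rw [Ideal.Quotient.eq_zero_iff_mem]
  let _ : Algebra (𝓞 K)[X] (𝓞 L) := (aeval α : (𝓞 K)[X] →ₐ[𝓞 K] 𝓞 L).toRingHom.toAlgebra
  have hmap : ∀ p : (𝓞 K)[X], algebraMap (𝓞 K)[X] (𝓞 L) p = aeval α p := fun p => rfl
  have : IsScalarTower (𝓞 K) (𝓞 K)[X] (𝓞 L) := IsScalarTower.of_algebraMap_eq fun a => by
    rw [hmap, Polynomial.algebraMap_apply, Algebra.algebraMap_self_apply, aeval_C]
  have : Algebra.IsIntegral (𝓞 K)[X] (𝓞 L) := ⟨fun y =>
    (Algebra.IsIntegral.isIntegral (R := 𝓞 K) y).tower_top⟩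
  have : (RingHom.ker φ).IsPrime := RingHom.ker_isPrime φ
  have hker : RingHom.ker (algebraMap (𝓞 K)[X] (𝓞 L)) ≤ RingHom.ker φ := by
    intro p hp
    rw [RingHom.mem_ker, hmap] at hp
    rw [hφ]
    obtain ⟨q, rfl⟩ := hmin p hp
    rw [eval_mul]
    exact Ideal.mul_mem_right _ _ hr
  obtain ⟨Q, hQ, hQ2⟩ := Ideal.exists_ideal_over_prime_of_isIntegral_of_isDomain
    (RingHom.ker φ) hker
  have hmem : ∀ p : (𝓞 K)[X], aeval α p ∈ Q ↔ p.eval r ∈ v.asIdeal := fun p => by
    rw [← hφ, ← hQ2, Ideal.mem_comap, hmap]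
  have hcomap : Q.comap (algebraMap (𝓞 K) (𝓞 L)) = v.asIdeal := by
    ext a
    rw [Ideal.mem_comap]
    have := hmem (C a)
    rwa [aeval_C, eval_C] at this
  have hne : Q ≠ ⊥ := by
    rintro rfl
    apply v.ne_bot
    rw [← hcomap, eq_bot_iff]
    intro a ha
    rw [Ideal.mem_comap, Ideal.mem_bot] at ha
    rw [Ideal.mem_bot]
    exact (FaithfulSMul.algebraMap_injective (𝓞 K) (𝓞 L)) (by rw [ha, map_zero])
  refine ⟨⟨Q, hQ, hne⟩, mem_abv.2 hcomap, ?_⟩
  have := (hmem (X - C r)).2 (by simp)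
  rwa [map_sub, aeval_X, aeval_C] at this

/-- The criterion of Dedekind in the form that is needed. -/
theorem mem_Spl_of_roots {v : HeightOneSpectrum (𝓞 K)} (α : 𝓞 L) (g : (𝓞 K)[X])
    (hmin : ∀ p : (𝓞 K)[X], aeval α p = 0 → g ∣ p) (T : Finset (𝓞 K))
    (hT : T.card = Module.finrank K L) (hr : ∀ r ∈ T, g.eval r ∈ v.asIdeal)
    (hd : ∀ r ∈ T, ∀ s ∈ T, r - s ∈ v.asIdeal → r = s) : v ∈ Spl K L := by
  classical
  have h1 := fun r : T => exists_root_prime (v := v) α g hmin r.1 (hr r.1 r.2)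
  choose w hw hw2 using h1
  have hinj : Function.Injective w := by
    intro r s hrs
    have e1 := hw2 r
    have e2 := hw2 s
    rw [← hrs] at e2
    have e3 : algebraMap (𝓞 K) (𝓞 L) (r.1 - s.1) ∈ (w r).asIdeal := by
      have := Ideal.sub_mem _ e2 e1
      rw [map_sub]
      convert this using 1
      ring
    have e4 : r.1 - s.1 ∈ (w r).asIdeal.comap (algebraMap (𝓞 K) (𝓞 L)) := e3
    rw [mem_abv.1 (hw r)] at e4
    exact Subtype.ext (hd _ r.2 _ s.2 e4)
  show (abv L v).ncard = _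
  refine le_antisymm (sum_formula v).1 ?_
  rw [← hT]
  have h2 : (Set.range w).ncard = T.card := by
    rw [← Set.image_univ, Set.ncard_image_of_injective _ hinj, Set.ncard_univ]
    simp
  rw [← h2]
  refine Set.ncard_le_ncard ?_ (finite_abv v)
  rintro _ ⟨r, rfl⟩
  exact hw r

end

variable {K : Type} [Field K] [NumberField K]

/-- `g` is a product of linear factors modulo `v`. -/
def SplitsMod (v : HeightOneSpectrum (𝓞 K)) (g : (𝓞 K)[X]) : Prop :=
  ∃ s : Multiset (𝓞 K ⧸ v.asIdeal),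
    g.map (Ideal.Quotient.mk v.asIdeal) = (s.map fun r => X - C r).prod

/-- Clearing denominators in the Bezout identity of `g` and its derivative. -/
theorem exists_bezout (g : (𝓞 K)[X]) (hg : Irreducible (g.map (algebraMap (𝓞 K) K))) :
    ∃ c : 𝓞 K, c ≠ 0 ∧ ∃ A B : (𝓞 K)[X], A * g + B * derivative g = C c := by
  classical
  have hsep : (g.map (algebraMap (𝓞 K) K)).Separable := hg.separable
  obtain ⟨a, b, hab⟩ := hsep
  obtain ⟨s, hs0, A, hA⟩ : ∃ s : 𝓞 K, s ≠ 0 ∧ ∃ A : (𝓞 K)[X],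
      A.map (algebraMap (𝓞 K) K) = C (algebraMap (𝓞 K) K s) * a := by
    obtain ⟨⟨s, hs⟩, hs2⟩ := IsLocalization.exist_integer_multiples_of_finset
      (nonZeroDivisors (𝓞 K)) (a.support.image a.coeff)
    have hc : ∀ i, ∃ y : 𝓞 K, algebraMap (𝓞 K) K y = algebraMap (𝓞 K) K s * a.coeff i := by
      intro i
      by_cases hi : i ∈ a.support
      · obtain ⟨y, hy⟩ := hs2 (a.coeff i) (Finset.mem_image_of_mem _ hi)
        exact ⟨y, by rw [hy, Algebra.smul_def]⟩
      · exact ⟨0, by rw [Polynomial.notMem_support_iff.1 hi, mul_zero, map_zero]⟩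
    choose y hy using hc
    refine ⟨s, nonZeroDivisors.ne_zero hs, ∑ i ∈ a.support, monomial i (y i), ?_⟩
    ext j
    rw [coeff_map, finsetSum_coeff, coeff_C_mul, ← hy j]
    congr 1
    simp only [coeff_monomial]
    rw [Finset.sum_ite_eq' a.support j y]
    split_ifs with hj
    · rfl
    · have h := hy j
      rw [Polynomial.notMem_support_iff.1 hj, mul_zero] at h
      exact (FaithfulSMul.algebraMap_injective (𝓞 K) K (by rw [h, map_zero])).symm
  obtain ⟨t, ht0, B, hB⟩ : ∃ s : 𝓞 K, s ≠ 0 ∧ ∃ A : (𝓞 K)[X],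
      A.map (algebraMap (𝓞 K) K) = C (algebraMap (𝓞 K) K s) * b := by
    obtain ⟨⟨s, hs⟩, hs2⟩ := IsLocalization.exist_integer_multiples_of_finset
      (nonZeroDivisors (𝓞 K)) (b.support.image b.coeff)
    have hc : ∀ i, ∃ y : 𝓞 K, algebraMap (𝓞 K) K y = algebraMap (𝓞 K) K s * b.coeff i := by
      intro i
      by_cases hi : i ∈ b.support
      · obtain ⟨y, hy⟩ := hs2 (b.coeff i) (Finset.mem_image_of_mem _ hi)
        exact ⟨y, by rw [hy, Algebra.smul_def]⟩
      · exact ⟨0, by rw [Polynomial.notMem_support_iff.1 hi, mul_zero, map_zero]⟩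
    choose y hy using hc
    refine ⟨s, nonZeroDivisors.ne_zero hs, ∑ i ∈ b.support, monomial i (y i), ?_⟩
    ext j
    rw [coeff_map, finsetSum_coeff, coeff_C_mul, ← hy j]
    congr 1
    simp only [coeff_monomial]
    rw [Finset.sum_ite_eq' b.support j y]
    split_ifs with hj
    · rfl
    · have h := hy j
      rw [Polynomial.notMem_support_iff.1 hj, mul_zero] at h
      exact (FaithfulSMul.algebraMap_injective (𝓞 K) K (by rw [h, map_zero])).symm
  refine ⟨s * t, mul_ne_zero hs0 ht0, C t * A, C s * B, ?_⟩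
  apply Polynomial.map_injective (algebraMap (𝓞 K) K) (FaithfulSMul.algebraMap_injective (𝓞 K) K)
  rw [Polynomial.map_add, Polynomial.map_mul, Polynomial.map_mul, Polynomial.map_mul,
    Polynomial.map_mul, hA, hB, ← derivative_map, map_C, map_C, map_C, map_mul, C_mul]
  linear_combination (C (algebraMap (𝓞 K) K s) * C (algebraMap (𝓞 K) K t)) * hab

/-- The primes modulo which an irreducible polynomial of degree `d` is a product of linear factors
have upper density at most `1/d`. -/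
theorem Up_SplitsMod (g : (𝓞 K)[X]) (hm : g.Monic)
    (hg : Irreducible (g.map (algebraMap (𝓞 K) K))) :
    Up K {v | SplitsMod v g} (1 / g.natDegree) := by
  classical
  have hfact : Fact (Irreducible (g.map (algebraMap (𝓞 K) K))) := ⟨hg⟩
  have hm' : (g.map (algebraMap (𝓞 K) K)).Monic := hm.map _
  set L := AdjoinRoot (g.map (algebraMap (𝓞 K) K)) with hL
  have hfinite : Module.Finite K L := (AdjoinRoot.powerBasis hg.ne_zero).finite
  have hNF : NumberField L := NumberField.of_module_finite K _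
  have hrank : Module.finrank K L = g.natDegree := by
    rw [(AdjoinRoot.powerBasis hg.ne_zero).finrank, AdjoinRoot.powerBasis_dim,
      hm.natDegree_map]
  have hroot : aeval (AdjoinRoot.root (g.map (algebraMap (𝓞 K) K))) g = 0 := by
    have h := AdjoinRoot.eval₂_root (g.map (algebraMap (𝓞 K) K))
    rw [eval₂_map] at h
    rw [aeval_def]
    exact h
  have hint : IsIntegral (𝓞 K) (AdjoinRoot.root (g.map (algebraMap (𝓞 K) K)) : L) :=
    ⟨g, hm, by rw [← aeval_def]; exact hroot⟩
  have hint' : IsIntegral ℤ (AdjoinRoot.root (g.map (algebraMap (𝓞 K) K)) : L) :=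
    isIntegral_trans _ hint
  let α : 𝓞 L := ⟨AdjoinRoot.root (g.map (algebraMap (𝓞 K) K)), hint'⟩
  have hα : ∀ p : (𝓞 K)[X], algebraMap (𝓞 L) L (aeval α p) =
      aeval (AdjoinRoot.root (g.map (algebraMap (𝓞 K) K)) : L) p := fun p => by
    rw [← aeval_algebraMap_apply]
    rfl
  have hmin : ∀ p : (𝓞 K)[X], aeval α p = 0 → g ∣ p := by
    intro p hp
    have h1 : aeval (AdjoinRoot.root (g.map (algebraMap (𝓞 K) K)) : L) p = 0 := by
      rw [← hα, hp, map_zero]
    have h2 : g.map (algebraMap (𝓞 K) K) ∣ p.map (algebraMap (𝓞 K) K) := by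
      rw [← AdjoinRoot.mk_eq_zero, ← AdjoinRoot.aeval_eq, aeval_map_algebraMap]
      exact h1
    exact (Polynomial.map_dvd_map _ (FaithfulSMul.algebraMap_injective (𝓞 K) K) hm).1 h2
  obtain ⟨c, hc0, A, B, hAB⟩ := exists_bezout g hg
  have hfin : {v : HeightOneSpectrum (𝓞 K) | c ∈ v.asIdeal}.Finite := by
    have h := Ideal.finite_factors (I := Ideal.span {c}) (by
      rw [Ne, Ideal.zero_eq_bot, Ideal.span_singleton_eq_bot]; exact hc0)
    refine h.subset fun v hv => ?_
    show v.asIdeal ∣ Ideal.span {c}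
    rw [Ideal.dvd_span_singleton]
    exact hv
  have hUp := (Up_Spl K L).union (Dn_finite hfin).up
  rw [hrank, add_zero] at hUp
  refine hUp.mono ?_
  rintro v ⟨s, hs⟩
  by_cases hcv : c ∈ v.asIdeal
  · exact Or.inr hcv
  · left
    let _ : Field (𝓞 K ⧸ v.asIdeal) := @Ideal.Quotient.field _ _ v.asIdeal v.isMaximal
    -- the roots are different
    have hsep : (g.map (Ideal.Quotient.mk v.asIdeal)).Separable := by
      have h1 := congrArg (Polynomial.map (Ideal.Quotient.mk v.asIdeal)) hAB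
      rw [Polynomial.map_add, Polynomial.map_mul, Polynomial.map_mul, ← derivative_map, map_C] at h1
      have hu : IsUnit (C (Ideal.Quotient.mk v.asIdeal c) : (𝓞 K ⧸ v.asIdeal)[X]) := by
        rw [isUnit_C, isUnit_iff_ne_zero, Ne, Ideal.Quotient.eq_zero_iff_mem]
        exact hcv
      obtain ⟨u, hu⟩ := hu.exists_left_inv
      refine ⟨u * A.map (Ideal.Quotient.mk v.asIdeal), u * B.map (Ideal.Quotient.mk v.asIdeal), ?_⟩
      rw [← hu, ← h1]
      ring
    have hdeg : s.card = g.natDegree := by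
      have h1 := congrArg natDegree hs
      rw [hm.natDegree_map, natDegree_multiset_prod_X_sub_C_eq_card] at h1
      exact h1.symm
    have hnd : s.Nodup := by
      have h1 := nodup_roots hsep
      rwa [hs, roots_multiset_prod_X_sub_C] at h1
    have hev : ∀ r ∈ s, eval r (g.map (Ideal.Quotient.mk v.asIdeal)) = 0 := by
      intro r hr
      have h1 : r ∈ (g.map (Ideal.Quotient.mk v.asIdeal)).roots := by
        rw [hs, roots_multiset_prod_X_sub_C]; exact hr
      exact (mem_roots'.1 h1).2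
    -- representatives
    let σ : (𝓞 K ⧸ v.asIdeal) → 𝓞 K := Function.surjInv Ideal.Quotient.mk_surjective
    have hσ : ∀ r, Ideal.Quotient.mk v.asIdeal (σ r) = r :=
      Function.surjInv_eq Ideal.Quotient.mk_surjective
    have hσi : Function.Injective σ := Function.injective_surjInv _
    refine mem_Spl_of_roots α g hmin (s.toFinset.image σ) ?_ ?_ ?_
    · rw [Finset.card_image_of_injective _ hσi, Multiset.toFinset_card_of_nodup hnd, hdeg, hrank]
    · intro r hr
      obtain ⟨t, ht, rfl⟩ := Finset.mem_image.1 hr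
      rw [← Ideal.Quotient.eq_zero_iff_mem, ← hev t (Multiset.mem_toFinset.1 ht)]
      conv_rhs => rw [← hσ t]
      rw [eval_map, eval₂_hom]
    · intro r hr r' hr' h
      obtain ⟨t, ht, rfl⟩ := Finset.mem_image.1 hr
      obtain ⟨t', ht', rfl⟩ := Finset.mem_image.1 hr'
      rw [← Ideal.Quotient.mk_eq_mk_iff_sub_mem, hσ, hσ] at h
      rw [h]

/-- **Lemma (E).** -/
theorem ext_nonsplit {ι : Type} [Fintype ι] (g : ι → (𝓞 K)[X]) (hm : ∀ i, (g i).Monic)
    (hg : ∀ i, Irreducible ((g i).map (algebraMap (𝓞 K) K)))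
    (hsum : ∑ i, (1 : ℝ) / (g i).natDegree < 1) :
    {v : HeightOneSpectrum (𝓞 K) | (nm v).Prime ∧ ∀ i, ¬ SplitsMod v (g i)}.Infinite := by
  classical
  have hU : ∀ T : Finset ι, Up K {v | ∃ i ∈ T, SplitsMod v (g i)}
      (∑ i ∈ T, (1 : ℝ) / (g i).natDegree) := by
    intro T
    induction T using Finset.induction_on with
    | empty =>
      rw [Finset.sum_empty]
      exact (Dn_finite Set.finite_empty).up.mono (by rintro v ⟨i, hi, _⟩; simp at hi)
    | insert j T hj ih =>
      rw [Finset.sum_insert hj]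
      refine ((Up_SplitsMod (g j) (hm j) (hg j)).union ih).mono ?_
      rintro v ⟨i, hi, hs⟩
      rcases Finset.mem_insert.1 hi with rfl | hi
      · exact Or.inl hs
      · exact Or.inr ⟨i, hi, hs⟩
  have h := infinite_deg_one (Dn_univ (K := K)) (hU Finset.univ) hsum
  refine h.mono ?_
  rintro v ⟨_, h2, h3⟩
  exact ⟨h3, fun i hs => h2 ⟨i, Finset.mem_univ i, hs⟩⟩

end Pool.Agent.ZD
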