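import Pool.Agent.Lib.ZD.Cyc

/-!
Densities of the primes with norm in a given subgroup of `(ℤ/n)ˣ`, without any hypothesis of
irreducibility.
-/

set_option autoImplicit false
set_option linter.unusedSectionVars false

open NumberField IsDedekindDomain

namespace Pool.Agent.ZD

section

variable {L : Type} [Field L] [NumberField L]

/-- **Density**, general form: `m` is the degree over `L` of the field cut out by `S`. -/
theorem Dn_cyc_gen (n : ℕ) [NeZero n] (S : Subgroup (ZMod n)ˣ) :
    ∃ m : ℕ, m ∣ S.index ∧ S.index ∣ Module.finrank ℚ L * m ∧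
      Dn L (NS L n (S : Set (ZMod n)ˣ)) (1 / m) := by
  classical
  let M := CyclotomicField n L
  have hgal : IsGalois L M := IsCyclotomicExtension.isGalois {n} L M
  have hNM : NumberField M := inferInstance
  let ζ : M := IsCyclotomicExtension.zeta n L M
  have hζ : IsPrimitiveRoot ζ n := IsCyclotomicExtension.zeta_spec n L M
  let χ : Gal(M/L) →* (ZMod n)ˣ := hζ.autToPow L
  have hχ : ∀ φ : Gal(M/L), ζ ^ ((χ φ : ZMod n)).val = φ ζ := fun φ => hζ.autToPow_spec L φ
  have hinj : Function.Injective χ := hζ.autToPow_injective L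
  let H : Subgroup Gal(M/L) := S.comap χ
  let F : IntermediateField L M := IntermediateField.fixedField H
  have hFG : IsGalois L F := IsGalois.of_fixedField_normal_subgroup H
  have hNF : NumberField F := inferInstance
  have hidx : Module.finrank L F = H.index := by
    have h1 := Module.finrank_mul_finrank L F M
    have h2 : Module.finrank F M = Nat.card H := IntermediateField.finrank_fixedField_eq_card H
    have h3 : Module.finrank L M = Nat.card Gal(M/L) := (IsGalois.card_aut_eq_finrank L M).symm
    have h4 := H.card_mul_index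
    rw [h2, h3, ← h4, mul_comm] at h1
    exact Nat.eq_of_mul_eq_mul_left Nat.card_pos h1
  have hD := Dn_Spl L F
  rw [hidx] at hD
  -- the exceptional set
  let R : Set (HeightOneSpectrum (𝓞 L)) := {v | ∃ w ∈ abv F v,
      w.asIdeal ∣ differentIdeal (𝓞 L) (𝓞 F)}
  let Z : Set (HeightOneSpectrum (𝓞 L)) := {v | (n : 𝓞 L) ∈ v.asIdeal}
  have hRf : (R ∪ Z).Finite := finite_ram.union (finite_dvd_n n (NeZero.ne n))
  -- the values of roots of unity
  have hval : ∀ (N : ℕ) (u : (ZMod n)ˣ), ζ ^ ((u : ZMod n)).val = ζ ^ N → (u : ZMod n) = N := by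
    intro N u h
    rw [pow_eq_pow_mod N hζ.pow_eq_one] at h
    have h1 := hζ.pow_inj (ZMod.val_lt _) (Nat.mod_lt _ (NeZero.pos n)) h
    have h2 : (((u : ZMod n).val : ℕ) : ZMod n) = ((N % n : ℕ) : ZMod n) := by rw [h1]
    rwa [ZMod.natCast_val, ZMod.cast_id, ZMod.natCast_mod] at h2
  refine ⟨H.index, ?_, ?_, hD.congr (Dn_finite hRf) ?_ ?_⟩
  · rw [Subgroup.index_comap]
    exact Subgroup.relIndex_dvd_index_of_normal S χ.range
  · have h1 : n.totient ∣ Module.finrank ℚ M := by
      have h2 : Module.finrank ℚ (IntermediateField.adjoin ℚ {ζ}) = n.totient := by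
        have h3 := IntermediateField.adjoin.finrank
          (((hζ.isIntegral (NeZero.pos n)).tower_top) : IsIntegral ℚ ζ)
        have h7 : Polynomial.cyclotomic n ℚ = minpoly ℚ ζ :=
          hζ.minpoly_eq_cyclotomic_of_irreducible
            (Polynomial.cyclotomic.irreducible_rat (NeZero.pos n))
        rw [← h7, Polynomial.natDegree_cyclotomic] at h3
        exact h3
      have h3 := Module.finrank_mul_finrank ℚ (IntermediateField.adjoin ℚ {ζ}) M
      rw [← h3, h2]
      exact Dvd.intro _ rfl
    have h2 := Module.finrank_mul_finrank ℚ L M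
    have h3 : Module.finrank L M = Nat.card Gal(M/L) := (IsGalois.card_aut_eq_finrank L M).symm
    have h4 := H.card_mul_index
    have h5 := S.card_mul_index
    have h6 : Nat.card (ZMod n)ˣ = n.totient := by
      rw [Nat.card_eq_fintype_card, ZMod.card_units_eq_totient]
    have h7 : Nat.card H ∣ Nat.card S := by
      let g : H →* S := (χ.comp H.subtype).codRestrict S (fun x => x.2)
      have hg : Function.Injective g := by
        intro x y hxy
        apply Subtype.ext
        apply hinj
        exact congrArg Subtype.val hxy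
      exact Subgroup.card_dvd_of_injective g hg
    obtain ⟨c, hc⟩ := h7
    have hS0 : 0 < Nat.card S := Nat.card_pos
    rw [← h2, h3, ← h4, ← h6, ← h5] at h1
    have h8 : Nat.card S * S.index ∣ Nat.card S * (Module.finrank ℚ L * H.index) := by
      refine h1.trans ⟨c, ?_⟩
      rw [hc]
      ring
    exact Nat.dvd_of_mul_dvd_mul_left hS0 h8
  · intro v hv
    by_cases hvZ : v ∈ Z
    · exact Or.inr (Or.inr hvZ)
    left
    obtain ⟨w, hw⟩ := abv_nonempty (L := M) v
    have hwv : w.under (𝓞 L) = v := hw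
    obtain ⟨φ, hφ⟩ := exists_frob (L := F) w
    have hu : w.under (𝓞 F) ∈ abv F v := by
      show (w.under (𝓞 F)).under (𝓞 L) = v
      rw [under_under, hwv]
    have hnm : nm (w.under (𝓞 F)) = nm v := nm_eq_of_mem_Spl hv hu
    have hnw : (n : 𝓞 M) ∉ w.asIdeal := by
      intro h
      apply hvZ
      show (n : 𝓞 L) ∈ v.asIdeal
      rw [← hwv]
      show algebraMap (𝓞 L) (𝓞 M) (n : 𝓞 L) ∈ w.asIdeal
      rw [map_natCast]
      exact h
    have h1 := frob_root hφ hnw hζ.pow_eq_one
    rw [hnm] at h1
    -- as an automorphism over `L`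
    let ψ : Gal(M/L) := φ.restrictScalars L
    have hψH : ψ ∈ H := by
      have h2 : H = F.fixingSubgroup := (IntermediateField.fixingSubgroup_fixedField H).symm
      rw [h2]
      rw [IntermediateField.mem_fixingSubgroup_iff]
      intro x hx
      exact φ.commutes (⟨x, hx⟩ : F)
    have hψ : ψ ζ = ζ ^ nm v := h1
    refine ⟨χ ψ, hψH, ?_⟩
    exact hval _ _ ((hχ ψ).trans hψ)
  · rintro v ⟨u, hu, huv⟩
    by_cases hvZ : v ∈ Z
    · exact Or.inr (Or.inr hvZ)
    by_cases hvR : v ∈ R
    · exact Or.inr (Or.inl hvR)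
    left
    obtain ⟨w, hw⟩ := abv_nonempty (L := M) v
    have hwv : w.under (𝓞 L) = v := hw
    obtain ⟨φ, hφ⟩ := exists_frob (L := L) w
    have hnw : (n : 𝓞 M) ∉ w.asIdeal := by
      intro h
      apply hvZ
      show (n : 𝓞 L) ∈ v.asIdeal
      rw [← hwv]
      show algebraMap (𝓞 L) (𝓞 M) (n : 𝓞 L) ∈ w.asIdeal
      rw [map_natCast]
      exact h
    have h1 := frob_root hφ hnw hζ.pow_eq_one
    rw [hwv] at h1
    have h2 : (χ φ : ZMod n) = nm v := hval _ _ ((hχ φ).trans h1)
    have h3 : χ φ = u := Units.ext (h2.trans huv.symm)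
    have hφH : φ ∈ H := by
      show χ φ ∈ S
      rw [h3]
      exact hu
    have hu : w.under (𝓞 F) ∈ abv F v := by
      show (w.under (𝓞 F)).under (𝓞 L) = v
      rw [under_under, hwv]
    refine mem_Spl_of_nm hvR hu ?_
    have h4 := nm_under_eq_of_frob (F := F) hφ fun x => x.2 ⟨φ, hφH⟩
    rwa [hwv] at h4

end

end Pool.Agent.ZD
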