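import Pool.Agent.Lib.ZD.Cyc

/-!
Irreducibility of cyclotomic polynomials over number fields.

* `irr_cyc_of_unram`: over a number field with an unramified prime above `q`.
* `finite_not_irr`: for all but finitely many primes `q`.
* `irr_cyc_ext`: it is preserved by extensions of degree prime to `φ(n)`.
-/

set_option autoImplicit false
set_option linter.unusedSectionVars false

open NumberField IsDedekindDomain Polynomial

namespace Pool.Agent.ZD

section

variable {L : Type} [Field L] [NumberField L]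

theorem irr_cyc_of_unram (q : ℕ) [hq : Fact q.Prime] (v : HeightOneSpectrum (𝓞 L))
    (h1 : (q : 𝓞 L) ∈ v.asIdeal) (h2 : (q : 𝓞 L) ∉ v.asIdeal ^ 2) :
    Irreducible (cyclotomic q L) := by
  have hE := cyclotomic_comp_X_add_one_isEisensteinAt q
  let Q : ℤ[X] := (cyclotomic q ℤ).comp (X + 1)
  have hQm : Q.Monic := (cyclotomic.monic q ℤ).comp (monic_X_add_C 1) (by
    rw [show (X + 1 : ℤ[X]) = X + C 1 by simp]
    rw [natDegree_X_add_C]
    exact one_ne_zero)
  let P : (𝓞 L)[X] := Q.map (Int.castRingHom (𝓞 L))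
  have hPm : P.Monic := hQm.map _
  have hdeg : P.natDegree = Q.natDegree := hQm.natDegree_map _
  have hPE : P.IsEisensteinAt v.asIdeal := by
    refine ⟨?_, ?_, ?_⟩
    · rw [hPm.leadingCoeff]
      exact fun h => v.isPrime.ne_top ((Ideal.eq_top_iff_one _).2 h)
    · intro n hn
      rw [hdeg] at hn
      have h3 := hE.mem hn
      rw [Ideal.submodule_span_eq, Ideal.mem_span_singleton] at h3
      obtain ⟨c, hc⟩ := h3
      show (Q.map (Int.castRingHom (𝓞 L))).coeff n ∈ _
      rw [coeff_map, hc, map_mul]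
      exact v.asIdeal.mul_mem_right _ (by simpa using h1)
    · have h3 : P.coeff 0 = (q : 𝓞 L) := by
        show (Q.map (Int.castRingHom (𝓞 L))).coeff 0 = _
        rw [coeff_map, coeff_zero_eq_eval_zero]
        have h4 : eval 0 Q = (q : ℤ) := by
          show eval 0 ((cyclotomic q ℤ).comp (X + 1)) = _
          rw [eval_comp, eval_add, eval_X, eval_one, zero_add, eval_one_cyclotomic_prime]
        rw [h4]
        simp
      rw [h3]
      exact h2
  have hpos : 0 < P.natDegree := by
    rw [hdeg]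
    show 0 < ((cyclotomic q ℤ).comp (X + 1)).natDegree
    rw [natDegree_comp, natDegree_cyclotomic, Nat.totient_prime hq.out,
      show (X + 1 : ℤ[X]) = X + C 1 by simp, natDegree_X_add_C, mul_one]
    have := hq.out.two_le
    omega
  have hPirr : Irreducible P := hPE.irreducible v.isPrime hPm.isPrimitive hpos
  have hPQ : P = algEquivAevalXAddC (1 : 𝓞 L) (cyclotomic q (𝓞 L)) := by
    show Q.map (Int.castRingHom (𝓞 L)) = _
    show ((cyclotomic q ℤ).comp (X + 1)).map (Int.castRingHom (𝓞 L)) = _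
    rw [map_comp, map_cyclotomic]
    simp [algEquivAevalXAddC, comp, aeval_def, eval₂_eq_eval_map]
  rw [hPQ] at hPirr
  have h3 : Irreducible (cyclotomic q (𝓞 L)) :=
    (MulEquiv.irreducible_iff (algEquivAevalXAddC (1 : 𝓞 L)).toMulEquiv).1 hPirr
  have h4 := ((cyclotomic.monic q (𝓞 L)).irreducible_iff_irreducible_map_fraction_map (K := L)).1 h3
  rwa [map_cyclotomic] at h4

theorem exists_above (L : Type) [Field L] [NumberField L] {q : ℕ} (hq : q.Prime) :
    ∃ v : HeightOneSpectrum (𝓞 L), (q : 𝓞 L) ∈ v.asIdeal := by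
  have hqz : Prime (q : ℤ) := Nat.prime_iff_prime_int.1 hq
  have hmax : (Ideal.span {(q : ℤ)}).IsMaximal :=
    PrincipalIdealRing.isMaximal_of_irreducible hqz.irreducible
  obtain ⟨P, hP1, hP2⟩ := Ideal.exists_maximal_ideal_liesOver_of_isIntegral (S := 𝓞 L)
    (Ideal.span {(q : ℤ)})
  have hmem : (q : 𝓞 L) ∈ P := by
    have h1 : (q : ℤ) ∈ P.under ℤ := by
      rw [← hP2.over]
      exact Ideal.mem_span_singleton_self _
    have h2 : algebraMap ℤ (𝓞 L) (q : ℤ) ∈ P := h1
    simpa using h2
  have hne : P ≠ ⊥ := by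
    rintro rfl
    rw [Ideal.mem_bot] at hmem
    exact hq.ne_zero (by exact_mod_cast hmem)
  exact ⟨⟨P, hP1.isPrime, hne⟩, hmem⟩

/-- Two different primes are not in the same prime ideal. -/
theorem prime_unique {v : HeightOneSpectrum (𝓞 L)} {p q : ℕ} (hp : p.Prime) (hq : q.Prime)
    (h1 : (p : 𝓞 L) ∈ v.asIdeal) (h2 : (q : 𝓞 L) ∈ v.asIdeal) : p = q := by
  by_contra hne
  have h3 : IsCoprime (p : ℤ) (q : ℤ) :=
    Nat.isCoprime_iff_coprime.2 ((Nat.coprime_primes hp hq).2 hne)
  obtain ⟨a, b, hab⟩ := h3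
  apply v.isPrime.ne_top
  rw [Ideal.eq_top_iff_one]
  have h4 : (1 : 𝓞 L) = (a : 𝓞 L) * p + (b : 𝓞 L) * q := by
    have := congrArg (Int.cast : ℤ → 𝓞 L) hab
    push_cast at this
    exact this.symm
  rw [h4]
  exact v.asIdeal.add_mem (v.asIdeal.mul_mem_left _ h1) (v.asIdeal.mul_mem_left _ h2)

theorem finite_not_irr (L : Type) [Field L] [NumberField L] :
    {q : ℕ | q.Prime ∧ ¬ Irreducible (cyclotomic q L)}.Finite := by
  let W : Set (HeightOneSpectrum (𝓞 L)) := {w | w.asIdeal ∣ differentIdeal ℤ (𝓞 L)}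
  have hW : W.Finite := Ideal.finite_factors (by
      rw [← Ideal.zero_eq_bot.symm]
      exact differentIdeal_ne_bot)
  have h1 : {q : ℕ | q.Prime ∧ ¬ Irreducible (cyclotomic q L)} ⊆
      ⋃ w ∈ W, {q : ℕ | q.Prime ∧ (q : 𝓞 L) ∈ w.asIdeal} := by
    rintro q ⟨hq, hirr⟩
    obtain ⟨v, hv⟩ := exists_above L hq
    rw [Set.mem_iUnion₂]
    refine ⟨v, ?_, hq, hv⟩
    have : Fact q.Prime := ⟨hq⟩
    by_contra hvW
    apply hirr
    refine irr_cyc_of_unram q v hv fun h2 => hvW ?_
    have hqz : Prime (q : ℤ) := Nat.prime_iff_prime_int.1 hq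
    have hmax : (Ideal.span {(q : ℤ)}).IsMaximal :=
      PrincipalIdealRing.isMaximal_of_irreducible hqz.irreducible
    have hne : Ideal.span {(q : ℤ)} ≠ ⊥ := by
      rw [Ne, Ideal.span_singleton_eq_bot]
      exact_mod_cast hq.ne_zero
    have h3 := pow_sub_one_dvd_differentIdeal ℤ v.asIdeal 2 hne (by
      rw [Ideal.dvd_iff_le, Ideal.map_span, Set.image_singleton, Ideal.span_le,
        Set.singleton_subset_iff]
      simpa using h2)
    show v.asIdeal ∣ differentIdeal ℤ (𝓞 L)
    simpa using h3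
  refine (hW.biUnion fun w _ => ?_).subset h1
  refine Set.Subsingleton.finite ?_
  rintro p ⟨hp, hp2⟩ q ⟨hq, hq2⟩
  exact prime_unique hp hq hp2 hq2

/-- Irreducibility is preserved by extensions of degree prime to `φ(n)`. -/
theorem irr_cyc_ext {K : Type} [Field K] [NumberField K] [Algebra K L] (n : ℕ) [NeZero n]
    (hirr : Irreducible (cyclotomic n K)) (hco : (Module.finrank K L).Coprime n.totient) :
    Irreducible (cyclotomic n L) := by
  let M := CyclotomicField n L
  have hNM : NumberField M := inferInstance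
  let ζ : M := IsCyclotomicExtension.zeta n L M
  have hζ : IsPrimitiveRoot ζ n := IsCyclotomicExtension.zeta_spec n L M
  have hintK : IsIntegral K ζ := (hζ.isIntegral (NeZero.pos n)).tower_top
  let E₀ : IntermediateField K M := IntermediateField.adjoin K {ζ}
  have h1 : Module.finrank K E₀ = n.totient := by
    have h2 := IntermediateField.adjoin.finrank hintK
    have h7 : cyclotomic n K = minpoly K ζ := hζ.minpoly_eq_cyclotomic_of_irreducible hirr
    rw [← h7, natDegree_cyclotomic] at h2
    exact h2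
  have hdvd : minpoly L ζ ∣ cyclotomic n L := by
    refine minpoly.dvd L ζ ?_
    have := hζ.isRoot_cyclotomic (NeZero.pos n)
    rw [aeval_def, eval₂_eq_eval_map, map_cyclotomic]
    exact this
  have h2 : Module.finrank L M = (minpoly L ζ).natDegree := by
    have h3 := (hζ.powerBasis L).finrank
    have h4 := (hζ.powerBasis L).natDegree_minpoly
    rw [hζ.powerBasis_gen L] at h4
    rw [h3, h4]
  have h3 := Module.finrank_mul_finrank K E₀ M
  have h4 := Module.finrank_mul_finrank K L M
  have h5 : n.totient ∣ Module.finrank L M := by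
    have h6 : n.totient ∣ Module.finrank K L * Module.finrank L M := by
      rw [h4, ← h3, h1]
      exact Dvd.intro _ rfl
    exact (Nat.Coprime.dvd_mul_left hco.symm).1 h6
  have hintL : IsIntegral L ζ := (hζ.isIntegral (NeZero.pos n)).tower_top
  have hmin : (minpoly L ζ).Monic := minpoly.monic hintL
  have h6 : cyclotomic n L = minpoly L ζ := by
    refine eq_of_monic_of_dvd_of_natDegree_le hmin (cyclotomic.monic n L) hdvd ?_
    rw [natDegree_cyclotomic, ← h2]
    exact Nat.le_of_dvd Module.finrank_pos h5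
  rw [h6]
  exact minpoly.irreducible hintL

end

end Pool.Agent.ZD
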