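import Mathlib

/-!
# Two lemmas on powers: Kummer theory and Schinzel's lemma
-/

set_option autoImplicit false

namespace Pool.Agent.ZD

open Polynomial

/-- roots of unity are in the base field if a primitive one is -/
theorem root_mem {K' F : Type} [Field K'] [Field F] [Algebra K' F] {N : ℕ} (hN : 0 < N) {ζ : K'}
    (hζ : IsPrimitiveRoot ζ N) {y : F} (hy : y ^ N = 1) : ∃ a : K', algebraMap K' F a = y := by
  have h1 : IsPrimitiveRoot (algebraMap K' F ζ) N :=
    hζ.map_of_injective (algebraMap K' F).injective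
  have : NeZero N := ⟨hN.ne'⟩
  obtain ⟨i, _, hi⟩ := h1.eq_pow_of_pow_eq_one hy
  exact ⟨ζ ^ i, by rw [map_pow, hi]⟩

/-- **Kummer theory.** `F` is generated over `K'` by `N`-th roots `δ i` of elements of `K'`,
`K'` contains a primitive `N`-th root of unity. If `z ∈ F` and `z ^ N ∈ K'` then `z` is a product
of powers of the `δ i` and an element of `K'`. -/
theorem kummer {K' F : Type} [Field K'] [Field F] [Algebra K' F] [FiniteDimensional K' F]
    [IsGalois K' F] [CharZero K'] {N : ℕ} (hN : 0 < N) {ζ : K'} (hζ : IsPrimitiveRoot ζ N)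
    {ι : Type} [Fintype ι] (δ : ι → F) (hδ0 : ∀ i, δ i ≠ 0)
    (hδ : ∀ i, ∃ a : K', algebraMap K' F a = δ i ^ N)
    (hgen : Algebra.adjoin K' (Set.range δ) = ⊤) (z : F) (hz0 : z ≠ 0)
    (hz : ∃ a : K', algebraMap K' F a = z ^ N) :
    ∃ (j : ι → ℕ) (c : K'), z = (∏ i, δ i ^ j i) * algebraMap K' F c := by
  classical
  -- elements whose `N`-th power is in `K'` are eigenvectors
  have eig : ∀ y : F, y ≠ 0 → (∃ a : K', algebraMap K' F a = y ^ N) →
      ∃ θ : Gal(F/K') →* K'ˣ, ∀ g : Gal(F/K'), g y = algebraMap K' F (θ g : K') * y := by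
    intro y hy0 ⟨a, ha⟩
    have h1 : ∀ g : Gal(F/K'), ∃ b : K', algebraMap K' F b = g y / y := by
      intro g
      refine root_mem hN hζ ?_
      rw [div_pow, ← map_pow, ← ha, AlgEquiv.commutes, div_self]
      rw [ha]
      exact pow_ne_zero _ hy0
    choose b hb using h1
    have hb0 : ∀ g, b g ≠ 0 := by
      intro g h0
      have h2 := hb g
      rw [h0, map_zero] at h2
      have h3 : g y ≠ 0 := (map_ne_zero g).2 hy0
      exact (div_ne_zero h3 hy0) h2.symm
    have hgy : ∀ g : Gal(F/K'), g y = algebraMap K' F (b g) * y := fun g => by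
      rw [hb g, div_mul_cancel₀ _ hy0]
    refine ⟨{ toFun := fun g => Units.mk0 (b g) (hb0 g), map_one' := ?_, map_mul' := ?_ }, ?_⟩
    · ext
      apply (algebraMap K' F).injective
      rw [Units.val_mk0, hb, Units.val_one, map_one, AlgEquiv.one_apply, div_self hy0]
    · intro g h
      ext
      apply (algebraMap K' F).injective
      rw [Units.val_mk0, Units.val_mul, Units.val_mk0, Units.val_mk0, map_mul, hb (g * h),
        AlgEquiv.mul_apply, hgy h, map_mul, AlgEquiv.commutes, mul_div_assoc, ← hb g, mul_comm]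
    · intro g
      exact hgy g
  obtain ⟨θz, hθz⟩ := eig z hz0 hz
  -- the projection
  let π : F →ₗ[K'] F := ∑ g : Gal(F/K'), ((θz g)⁻¹ : K'ˣ).val • (g : F ≃ₐ[K'] F).toLinearMap
  have hπ : ∀ y, π y = ∑ g : Gal(F/K'), algebraMap K' F ((θz g)⁻¹ : K'ˣ).val * g y := by
    intro y
    simp only [π, LinearMap.sum_apply]
    refine Finset.sum_congr rfl fun g _ => ?_
    rw [LinearMap.smul_apply, AlgEquiv.toLinearMap_apply, Algebra.smul_def]
  have hπz : π z ≠ 0 := by
    rw [hπ]
    have h1 : ∀ g : Gal(F/K'), algebraMap K' F ((θz g)⁻¹ : K'ˣ).val * g z = z := by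
      intro g
      rw [hθz g, ← mul_assoc, ← map_mul, ← Units.val_mul, inv_mul_cancel, Units.val_one, map_one,
        one_mul]
    rw [Finset.sum_congr rfl fun g _ => h1 g, Finset.sum_const, nsmul_eq_mul]
    have : CharZero F := charZero_of_injective_algebraMap (algebraMap K' F).injective
    refine mul_ne_zero ?_ hz0
    rw [Nat.cast_ne_zero, Finset.card_univ]
    exact Fintype.card_ne_zero
  -- some monomial has a nonzero projection
  obtain ⟨m, hm, hπm⟩ : ∃ m ∈ Submonoid.closure (Set.range δ), π m ≠ 0 := by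
    by_contra hcon
    push Not at hcon
    apply hπz
    have h1 : z ∈ Submodule.span K' (Submonoid.closure (Set.range δ) : Set F) := by
      rw [← Algebra.adjoin_eq_span, hgen]
      trivial
    have h2 : Submodule.span K' (Submonoid.closure (Set.range δ) : Set F) ≤ LinearMap.ker π := by
      rw [Submodule.span_le]
      intro y hy
      exact LinearMap.mem_ker.2 (hcon y hy)
    exact LinearMap.mem_ker.1 (h2 h1)
  obtain ⟨j, hj⟩ : ∃ j : ι → ℕ, m = ∏ i, δ i ^ j i := by
    refine Submonoid.closure_induction (motive := fun m _ => ∃ j : ι → ℕ, m = ∏ i, δ i ^ j i)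
      ?_ ?_ ?_ hm
    · rintro _ ⟨i, rfl⟩
      refine ⟨Pi.single i 1, ?_⟩
      rw [Finset.prod_eq_single i]
      · rw [Pi.single_eq_same, pow_one]
      · intro k _ hk
        rw [Pi.single_eq_of_ne hk, pow_zero]
      · intro h
        exact absurd (Finset.mem_univ i) h
    · exact ⟨0, by simp⟩
    · rintro x y _ _ ⟨j, rfl⟩ ⟨k, rfl⟩
      exact ⟨j + k, by simp only [Pi.add_apply, pow_add, Finset.prod_mul_distrib]⟩
  have hm0 : m ≠ 0 := by
    rw [hj]
    exact Finset.prod_ne_zero_iff.2 fun i _ => pow_ne_zero _ (hδ0 i)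
  have hmN : ∃ a : K', algebraMap K' F a = m ^ N := by
    choose a ha using hδ
    refine ⟨∏ i, a i ^ j i, ?_⟩
    rw [hj, map_prod, ← Finset.prod_pow]
    refine Finset.prod_congr rfl fun i _ => ?_
    rw [map_pow, ha, ← pow_mul, ← pow_mul, mul_comm]
  obtain ⟨θm, hθm⟩ := eig m hm0 hmN
  have hθ : θz = θm := by
    by_contra hne
    apply hπm
    have hne' : (θm / θz) ≠ 1 := by
      intro h
      exact hne (div_eq_one.1 h).symm
    have h1 : ∑ g : Gal(F/K'), (((Units.coeHom K').comp (θm / θz)) g : K') = 0 := by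
      have h2 := sum_hom_units_eq_zero ((Units.coeHom K').comp (θm / θz)) (by
        intro h
        apply hne'
        ext g
        have := DFunLike.congr_fun h g
        simpa using this)
      exact h2
    rw [hπ]
    have h2 : ∀ g : Gal(F/K'), algebraMap K' F ((θz g)⁻¹ : K'ˣ).val * g m =
        algebraMap K' F (((Units.coeHom K').comp (θm / θz)) g) * m := by
      intro g
      rw [hθm g, ← mul_assoc, ← map_mul]
      congr 2
      simp [div_eq_mul_inv, mul_comm]
    rw [Finset.sum_congr rfl fun g _ => h2 g, ← Finset.sum_mul, ← map_sum, h1, map_zero, zero_mul]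
  -- the quotient is fixed
  have hfix : ∀ g : Gal(F/K'), g (z / m) = z / m := by
    intro g
    rw [map_div₀, hθz g, hθm g, hθ, mul_div_mul_left]
    rw [Ne, map_eq_zero]
    exact Units.ne_zero _
  obtain ⟨c, hc⟩ : ∃ c : K', algebraMap K' F c = z / m := by
    have := (IsGalois.mem_bot_iff_fixed (F := K') (E := F) (z / m)).2 hfix
    rw [IntermediateField.mem_bot] at this
    exact this
  exact ⟨j, c, by rw [hc, ← hj, mul_div_cancel₀ _ hm0]⟩

/-- **Schinzel's lemma.** `K'/L` Galois, `h` a central element of the Galois group that fixes no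
`N`-th root of unity but `1`. If `x ∈ L` is an `N`-th power in `K'` then it is one in `L`. -/
theorem schinzel {L K' : Type} [Field L] [Field K'] [Algebra L K'] [FiniteDimensional L K']
    [IsGalois L K'] {N : ℕ} (hN : 0 < N) (h : Gal(K'/L)) (hcen : ∀ g : Gal(K'/L), g * h = h * g)
    (hfix : ∀ ε : K', ε ^ N = 1 → h ε = ε → ε = 1) (x : L) (c : K')
    (hc : algebraMap L K' x = c ^ N) : ∃ y : L, x = y ^ N := by
  classical
  rcases eq_or_ne c 0 with hc0 | hc0
  · refine ⟨0, ?_⟩
    apply (algebraMap L K').injective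
    rw [hc, hc0, map_pow, map_zero]
  -- roots of unity
  have : NeZero N := ⟨hN.ne'⟩
  have hroot : ∀ (g : Gal(K'/L)) (y : K'), y ≠ 0 → (∃ a : L, algebraMap L K' a = y ^ N) →
      (g y / y) ^ N = 1 := by
    intro g y hy ⟨a, ha⟩
    rw [div_pow, ← map_pow, ← ha, AlgEquiv.commutes, div_self]
    rw [ha]
    exact pow_ne_zero _ hy
  -- `η ↦ h η / η` is surjective on the roots of unity
  let f : rootsOfUnity N K' → rootsOfUnity N K' := fun η =>
    ⟨Units.mk0 (h (η.1 : K') / (η.1 : K')) (div_ne_zero ((map_ne_zero h).2 η.1.ne_zero)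
      η.1.ne_zero), by
      rw [mem_rootsOfUnity]
      ext
      rw [Units.val_pow_eq_pow_val, Units.val_mk0, Units.val_one]
      have h2 : ((η.1 : K'ˣ) : K') ^ N = 1 := by
        rw [← Units.val_pow_eq_pow_val, (mem_rootsOfUnity N η.1).1 η.2, Units.val_one]
      rw [div_pow, ← map_pow, h2, map_one, div_one]⟩
  have hf : ∀ η, (((f η).1 : K'ˣ) : K') = h (η.1 : K') / (η.1 : K') := fun η => rfl
  have hfi : Function.Injective f := by
    intro η η' he
    have h1 : h (η.1 : K') / (η.1 : K') = h (η'.1 : K') / (η'.1 : K') := by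
      rw [← hf, ← hf, he]
    have h2 : h ((η.1 : K') / (η'.1 : K')) = (η.1 : K') / (η'.1 : K') := by
      rw [map_div₀]
      rw [div_eq_div_iff η.1.ne_zero η'.1.ne_zero] at h1
      rw [div_eq_div_iff ((map_ne_zero h).2 η'.1.ne_zero) η'.1.ne_zero]
      linear_combination h1
    have h3 : ((η.1 : K') / (η'.1 : K')) ^ N = 1 := by
      rw [div_pow, ← Units.val_pow_eq_pow_val, ← Units.val_pow_eq_pow_val,
        (mem_rootsOfUnity N η.1).1 η.2, (mem_rootsOfUnity N η'.1).1 η'.2]
      simp
    have h4 := hfix _ h3 h2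
    rw [div_eq_one_iff_eq η'.1.ne_zero] at h4
    exact Subtype.ext (Units.ext h4)
  have hfs : Function.Surjective f := Finite.surjective_of_injective hfi
  have hcN : (h c / c) ^ N = 1 := hroot h c hc0 ⟨x, hc⟩
  obtain ⟨η, hη⟩ := hfs ⟨Units.mk0 (h c / c) (div_ne_zero ((map_ne_zero h).2 hc0) hc0), by
    rw [mem_rootsOfUnity]
    ext
    rw [Units.val_pow_eq_pow_val, Units.val_mk0, Units.val_one]
    exact hcN⟩
  have hη' : h (η.1 : K') / (η.1 : K') = h c / c := by
    rw [← hf, hη, Units.val_mk0]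
  set e : K' := (η.1 : K') with he
  have he0 : e ≠ 0 := η.1.ne_zero
  have heN : e ^ N = 1 := by
    rw [he, ← Units.val_pow_eq_pow_val, (mem_rootsOfUnity N η.1).1 η.2, Units.val_one]
  have hcη : h (c / e) = c / e := by
    rw [map_div₀]
    rw [div_eq_div_iff he0 hc0] at hη'
    rw [div_eq_div_iff ((map_ne_zero h).2 he0) he0]
    linear_combination -hη'
  have hce0 : c / e ≠ 0 := div_ne_zero hc0 he0
  have hceN : algebraMap L K' x = (c / e) ^ N := by rw [div_pow, heN, div_one, hc]
  have hall : ∀ g : Gal(K'/L), g (c / e) = c / e := by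
    intro g
    have h1 := hroot g (c / e) hce0 ⟨x, hceN⟩
    have h2 : h (g (c / e) / (c / e)) = g (c / e) / (c / e) := by
      rw [map_div₀, hcη]
      have h3 : h (g (c / e)) = g (h (c / e)) := by
        have := congrArg (fun k : Gal(K'/L) => k (c / e)) (hcen g)
        simp only [AlgEquiv.mul_apply] at this
        exact this.symm
      rw [h3, hcη]
    have h4 := hfix _ h1 h2
    rwa [div_eq_one_iff_eq hce0] at h4
  obtain ⟨y, hy⟩ : ∃ y : L, algebraMap L K' y = c / e := by
    have := (IsGalois.mem_bot_iff_fixed (F := L) (E := K') (c / e)).2 hall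
    rw [IntermediateField.mem_bot] at this
    exact this
  refine ⟨y, (algebraMap L K').injective ?_⟩
  rw [hceN, map_pow, hy]

end Pool.Agent.ZD
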